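import Mathlib

/-!
# MP_c8d30a, exponent 12, II.6: the direction lemma
-/

set_option autoImplicit false

namespace Pool.Agent.helper36.T1

section
variable {α : Type*}

/-- a position is a token with the kind of its next edge (`true`: `p`, `false`: `m`). -/
def nx (p m : α → α) (a : α × Bool) : α × Bool := if a.2 then (p a.1, false) else (m a.1, true)

/-- the reversed position. -/
def rv (a : α × Bool) : α × Bool := (a.1, !a.2)

/-- the next edge is a defect. -/
def Df (p m : α → α) (S : α → Bool) (a : α × Bool) : Prop := S a.1 = S (nx p m a).1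

/-- the invariant. -/
def iv (S : α → Bool) (a : α × Bool) : Bool := xor (S a.1) a.2

variable {p m : α → α}

@[simp] theorem nx_true (w : α) : nx p m (w, true) = (p w, false) := rfl
@[simp] theorem nx_false (w : α) : nx p m (w, false) = (m w, true) := rfl
@[simp] theorem rv_mk (w : α) (k : Bool) : rv (w, k) = (w, !k) := rfl
@[simp] theorem rv_rv (a : α × Bool) : rv (rv a) = a := by obtain ⟨w, k⟩ := a; simp

variable (hp : ∀ t, p (p t) = t) (hm : ∀ t, m (m t) = t) (hp0 : ∀ t, p t ≠ t) (hm0 : ∀ t, m t ≠ t)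
include hp hm

theorem nx_rv (a : α × Bool) : nx p m (rv (nx p m a)) = rv a := by
  obtain ⟨w, k⟩ := a
  cases k <;> simp [hp, hm]

theorem nx_inj : Function.Injective (nx p m) := by
  intro a b h
  have h1 : rv a = rv b := by rw [← nx_rv hp hm a, ← nx_rv hp hm b, h]
  rw [← rv_rv a, h1, rv_rv]

theorem iter_rv (k : ℕ) (a : α × Bool) : (nx p m)^[k] (rv ((nx p m)^[k] a)) = rv a := by
  induction k with
  | zero => rfl
  | succ k ih =>
    rw [Function.iterate_succ_apply, Function.iterate_succ_apply' (nx p m) k a, nx_rv hp hm, ih]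

include hp0 hm0 in
theorem no_rev : ∀ (k : ℕ) (a : α × Bool), (nx p m)^[k] (rv a) ≠ a
  | 0, a => by
    obtain ⟨w, k⟩ := a
    cases k <;> simp
  | 1, a => by
    obtain ⟨w, k⟩ := a
    cases k <;> simp [hp0, hm0]
  | k + 2, a => by
    intro h
    set c := rv (nx p m (rv a)) with hc
    have h1 : nx p m c = a := by rw [hc, nx_rv hp hm, rv_rv]
    have h2 : rv c = nx p m (rv a) := by rw [hc, rv_rv]
    rw [Function.iterate_succ_apply, ← h2, Function.iterate_succ_apply'] at h
    have h3 := nx_inj hp hm (h.trans h1.symm)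
    exact no_rev k c h3

omit hp hm in
theorem iv_rv (S : α → Bool) (a : α × Bool) : iv S (rv a) = !iv S a := by
  obtain ⟨w, k⟩ := a
  simp only [iv, rv_mk]
  cases S w <;> cases k <;> rfl

omit hp hm in
theorem nx_kind (a : α × Bool) : (nx p m a).2 = !a.2 := by
  obtain ⟨w, k⟩ := a
  cases k <;> rfl

omit hp hm in
theorem iv_nd {S : α → Bool} {a : α × Bool} (h : ¬ Df p m S a) : iv S (nx p m a) = iv S a := by
  unfold Df at h
  unfold iv
  rw [nx_kind]
  cases h1 : S a.1 <;> cases h2 : S (nx p m a).1 <;> cases a.2 <;> simp_all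

omit hp hm in
theorem iv_df {S : α → Bool} {a : α × Bool} (h : Df p m S a) : iv S (nx p m a) = !iv S a := by
  unfold Df at h
  unfold iv
  rw [nx_kind]
  cases h1 : S a.1 <;> cases h2 : S (nx p m a).1 <;> cases a.2 <;> simp_all

omit hp hm in
theorem iv_path {S : α → Bool} {a : α × Bool} {k : ℕ} (h : ∀ i < k, ¬ Df p m S ((nx p m)^[i] a)) :
    iv S ((nx p m)^[k] a) = iv S a := by
  induction k with
  | zero => rfl
  | succ k ih =>
    rw [Function.iterate_succ_apply', iv_nd (h k (by omega)), ih (fun i hi => h i (by omega))]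

omit hp hm in
theorem first {S : α → Bool} {F : α → Prop} {xi : α × Bool} {L : ℕ} (h : ∃ j < L, Df p m S ((nx p m)^[j] xi)) :
    (∃ j < L, Df p m S ((nx p m)^[j] xi) ∧ (∀ i < j, ¬ Df p m S ((nx p m)^[i] xi)) ∧ ∀ i ≤ j, ¬ F ((nx p m)^[i] xi).1) ∨
    (∃ i, F ((nx p m)^[i] xi).1 ∧ (∀ k < i, ¬ F ((nx p m)^[k] xi).1) ∧ ∀ k < i, ¬ Df p m S ((nx p m)^[k] xi)) := by
  classical
  obtain ⟨j0, hj0, hd0⟩ := h
  have hex : ∃ j, Df p m S ((nx p m)^[j] xi) := ⟨j0, hd0⟩
  have h1 := Nat.find_spec hex
  have h2 : Nat.find hex ≤ j0 := Nat.find_min' hex hd0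
  have h3 : ∀ i < Nat.find hex, ¬ Df p m S ((nx p m)^[i] xi) := fun i hi => Nat.find_min hex hi
  by_cases hF : ∃ i, F ((nx p m)^[i] xi).1 ∧ i ≤ Nat.find hex
  · obtain ⟨i, hi, hij⟩ := hF
    have hex2 : ∃ i, F ((nx p m)^[i] xi).1 := ⟨i, hi⟩
    have h4 := Nat.find_spec hex2
    have h5 : Nat.find hex2 ≤ i := Nat.find_min' hex2 hi
    exact Or.inr ⟨Nat.find hex2, h4, fun k hk => Nat.find_min hex2 hk, fun k hk => h3 k (by omega)⟩
  · refine Or.inl ⟨Nat.find hex, by omega, h1, h3, fun i hi hFi => hF ⟨i, hFi, hi⟩⟩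

include hp0 hm0 in
/-- **the direction lemma**. -/
theorem dir {S : α → Bool} {g : α × Bool} {f : α} {L : ℕ} (hL : 0 < L) (hper : (nx p m)^[L] g = g) (hg : Df p m S g)
    (hf : S f ≠ S (p f)) (h1 : (nx p m g).2 = false → (nx p m g).1 ≠ f ∧ (nx p m g).1 ≠ p f)
    (h2 : (rv g).2 = false → (rv g).1 ≠ f ∧ (rv g).1 ≠ p f) :
    ∃ xi, (xi = nx p m g ∨ xi = rv g) ∧ ∃ j < L, Df p m S ((nx p m)^[j] xi) ∧ (∀ i < j, ¬ Df p m S ((nx p m)^[i] xi)) ∧
      (∀ i ≤ j, ((nx p m)^[i] xi).1 ≠ f ∧ ((nx p m)^[i] xi).1 ≠ p f) ∧ (nx p m)^[j] xi ≠ g ∧ (nx p m)^[j] xi ≠ rv (nx p m g) := by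
  obtain ⟨L, rfl⟩ : ∃ L', L = L' + 1 := ⟨L - 1, by omega⟩
  have inj := nx_inj hp hm
  -- both directions meet a defect
  have d1 : ∃ j < L + 1, Df p m S ((nx p m)^[j] (nx p m g)) := by
    refine ⟨L, by omega, ?_⟩
    rw [← Function.iterate_succ_apply, hper]
    exact hg
  have d2 : ∃ j < L + 1, Df p m S ((nx p m)^[j] (rv g)) := by
    refine ⟨L, by omega, ?_⟩
    have e1 : (nx p m)^[L + 1] (rv g) = rv g := by
      have := iter_rv hp hm (L + 1) g
      rwa [hper] at this
    have e2 : (nx p m)^[L] (rv g) = rv (nx p m g) := by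
      apply inj
      rw [← Function.iterate_succ_apply' (nx p m), e1, nx_rv hp hm]
    rw [e2]
    unfold Df at hg ⊢
    rw [nx_rv hp hm]
    exact hg.symm
  have hF : ∀ w, (w = f ∨ w = p f) → (p w = f ∨ p w = p f) := by
    rintro w (rfl | rfl)
    · exact Or.inr rfl
    · exact Or.inl (hp f)
  -- the kind at the first meeting with the wall
  have kind : ∀ (xi : α × Bool) (i : ℕ), (xi.2 = false → ¬ (xi.1 = f ∨ xi.1 = p f)) →
      (((nx p m)^[i] xi).1 = f ∨ ((nx p m)^[i] xi).1 = p f) → (∀ k < i, ¬ (((nx p m)^[k] xi).1 = f ∨ ((nx p m)^[k] xi).1 = p f)) →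
      ((nx p m)^[i] xi).2 = true := by
    intro xi i hxi hi hk
    cases hq : ((nx p m)^[i] xi).2 with
    | true => rfl
    | false =>
      exfalso
      cases i with
      | zero => exact hxi hq hi
      | succ i =>
        rw [Function.iterate_succ_apply'] at hi hq
        have h3 := hk i (by omega)
        cases hc : (nx p m)^[i] xi with
        | mk w k =>
          rw [hc] at hi hq h3
          cases k with
          | true =>
            simp only [nx_true] at hi
            have := hF _ hi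
            rw [hp] at this
            exact h3 this
          | false => simp at hq
  rcases first (F := fun w => w = f ∨ w = p f) d1 with ⟨j, hj, hj1, hj2, hj3⟩ | ⟨i, hi1, hi2, hi3⟩
  · refine ⟨nx p m g, Or.inl rfl, j, hj, hj1, hj2, fun i hi => ?_, ?_, ?_⟩
    · have := hj3 i hi
      exact ⟨fun h => this (Or.inl h), fun h => this (Or.inr h)⟩
    · intro h
      have e := iv_path hj2
      rw [h, iv_df hg] at e
      cases hq : iv S g <;> rw [hq] at e <;> simp at e
    · intro h
      exact no_rev hp hm hp0 hm0 j (rv (nx p m g)) (by rw [rv_rv]; exact h)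
  · rcases first (F := fun w => w = f ∨ w = p f) d2 with ⟨j, hj, hj1, hj2, hj3⟩ | ⟨k, hk1, hk2, hk3⟩
    · refine ⟨rv g, Or.inr rfl, j, hj, hj1, hj2, fun i hi => ?_, ?_, ?_⟩
      · have := hj3 i hi
        exact ⟨fun h => this (Or.inl h), fun h => this (Or.inr h)⟩
      · exact no_rev hp hm hp0 hm0 j g
      · intro h
        have e := iv_path hj2
        rw [h, iv_rv, iv_rv, iv_df hg] at e
        cases hq : iv S g <;> rw [hq] at e <;> simp at e
    · exfalso
      have q1 := kind _ _ (fun h h' => by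
        rcases h' with h' | h'
        · exact (h1 h).1 h'
        · exact (h1 h).2 h') hi1 hi2
      have q2 := kind _ _ (fun h h' => by
        rcases h' with h' | h'
        · exact (h2 h).1 h'
        · exact (h2 h).2 h') hk1 hk2
      have e1 := iv_path hi3
      have e2 := iv_path hk3
      rw [iv_df hg] at e1
      rw [iv_rv] at e2
      have e3 : iv S ((nx p m)^[i] (nx p m g)) = iv S ((nx p m)^[k] (rv g)) := e1.trans e2.symm
      have e4 : S ((nx p m)^[i] (nx p m g)).1 = S ((nx p m)^[k] (rv g)).1 := by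
        unfold iv at e3
        rw [q1, q2] at e3
        cases h5 : S ((nx p m)^[i] (nx p m g)).1 <;> cases h6 : S ((nx p m)^[k] (rv g)).1 <;> rw [h5, h6] at e3 <;>
          simp at e3 ⊢
      by_cases h7 : ((nx p m)^[i] (nx p m g)).1 = ((nx p m)^[k] (rv g)).1
      · have h8 : (nx p m)^[i] (nx p m g) = (nx p m)^[k] (rv g) := Prod.ext h7 (q1.trans q2.symm)
        have h9 : (nx p m)^[k] (rv ((nx p m)^[k] (rv g))) = g := by rw [iter_rv hp hm, rv_rv]
        apply no_rev hp hm hp0 hm0 (i + 1 + k) ((nx p m)^[k] (rv g))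
        rw [Function.iterate_add_apply, h9, Function.iterate_succ_apply, h8]
      · rcases hi1 with hi1 | hi1 <;> rcases hk1 with hk1 | hk1 <;> rw [hi1, hk1] at h7 e4
        · exact h7 rfl
        · exact hf e4
        · exact hf e4.symm
        · exact h7 rfl

/-- a position of a finite set, closed under `p` and `m`, is periodic. -/
theorem period (T : Finset α) (hpT : ∀ t ∈ T, p t ∈ T) (hmT : ∀ t ∈ T, m t ∈ T) {a : α × Bool} (ha : a.1 ∈ T) :
    ∃ L, 0 < L ∧ L ≤ 2 * T.card ∧ (nx p m)^[L] a = a := by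
  classical
  have hin : ∀ i, (nx p m)^[i] a ∈ T ×ˢ (Finset.univ : Finset Bool) := by
    intro i
    induction i with
    | zero => simpa using ha
    | succ i ih =>
      rw [Function.iterate_succ_apply']
      cases hc : (nx p m)^[i] a with
      | mk w k =>
        rw [hc] at ih
        simp only [Finset.mem_product, Finset.mem_univ, and_true] at ih ⊢
        cases k with
        | true => exact hpT w ih
        | false => exact hmT w ih
  have hcard : (T ×ˢ (Finset.univ : Finset Bool)).card < (Finset.range (2 * T.card + 1)).card := by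
    rw [Finset.card_product, Finset.card_range]
    simp
    omega
  obtain ⟨i, hi, j, hj, hij, he⟩ := Finset.exists_ne_map_eq_of_card_lt_of_maps_to hcard (f := fun i => (nx p m)^[i] a)
    (fun i _ => hin i)
  simp only [Finset.mem_range] at hi hj
  have key : ∀ i j : ℕ, i < j → j < 2 * T.card + 1 → (nx p m)^[i] a = (nx p m)^[j] a →
      ∃ L, 0 < L ∧ L ≤ 2 * T.card ∧ (nx p m)^[L] a = a := by
    intro i j hij hj he
    refine ⟨j - i, by omega, by omega, ?_⟩
    have h3 : (nx p m)^[i] ((nx p m)^[j - i] a) = (nx p m)^[i] a := by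
      rw [← Function.iterate_add_apply, he]
      congr 1
      omega
    exact (nx_inj hp hm).iterate i h3
  rcases lt_or_gt_of_ne hij with h | h
  · exact key i j h hj he
  · exact key j i h hi he.symm

end

end Pool.Agent.helper36.T1
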