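import Pool.Agent.helper36.T1.Split

/-!
# MP_c8d30a, exponent 12, II.6: the step H and its mirror image
-/

set_option autoImplicit false
set_option linter.unusedSimpArgs false
set_option linter.unusedSectionVars false

namespace Pool.Agent.helper36.T1

open NTH Pool.Agent.helper32.RH Equiv
open NP (Cd MD Cp Fr wk Stop)

variable {Ω : Type} [DecidableEq Ω] {p : Ω → Ω}

/-- the permutation of the step. -/
def tau (p : Ω → Ω) (u x y : Ω) : Equiv.Perm Ω := swap y (p x) * (swap u (p y) * (swap y (p u) * swap u x))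

theorem tau_val (hp : ∀ t, p (p t) = t) {u x y : Ω} (h1 : u ≠ x) (h2 : u ≠ p x) (h3 : u ≠ y) (h4 : u ≠ p y)
    (h5 : x ≠ y) (h6 : x ≠ p y) (hne : ∀ t, p t ≠ t) :
    tau p u x y u = x ∧ tau p u x y x = p y ∧ tau p u x y (p y) = u ∧ tau p u x y (p u) = p x ∧ tau p u x y (p x) = y ∧
      tau p u x y y = p u ∧ ∀ w, w ≠ u → w ≠ p u → w ≠ x → w ≠ p x → w ≠ y → w ≠ p y → tau p u x y w = w := by
  have e1 : p u ≠ x := fun h => h2 (by rw [← h, hp])
  have e2 : p u ≠ y := fun h => h4 (by rw [← h, hp])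
  have e3 : p x ≠ y := fun h => h6 (by rw [← h, hp])
  have e4 : p u ≠ p x := fun h => h1 (by rw [← hp u, h, hp])
  have e5 : p u ≠ p y := fun h => h3 (by rw [← hp u, h, hp])
  have e6 : p x ≠ p y := fun h => h5 (by rw [← hp x, h, hp])
  have n1 := hne u
  have n2 := hne x
  have n3 := hne y
  refine ⟨?_, ?_, ?_, ?_, ?_, ?_, fun w w1 w2 w3 w4 w5 w6 => ?_⟩ <;> simp only [tau, Perm.mul_apply] <;>
    simp [swap_apply_def, *, Ne.symm h1, Ne.symm h2, Ne.symm h3, Ne.symm h4, Ne.symm h5, Ne.symm h6, Ne.symm e1, Ne.symm e2,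
      Ne.symm e3, Ne.symm e4, Ne.symm e5, Ne.symm e6, Ne.symm n1, Ne.symm n2, Ne.symm n3]

theorem tau_comm (hp : ∀ t, p (p t) = t) {u x y : Ω} (h1 : u ≠ x) (h2 : u ≠ p x) (h3 : u ≠ y) (h4 : u ≠ p y)
    (h5 : x ≠ y) (h6 : x ≠ p y) (hne : ∀ t, p t ≠ t) (w : Ω) : tau p u x y (p w) = p (tau p u x y w) := by
  obtain ⟨v1, v2, v3, v4, v5, v6, v7⟩ := tau_val hp h1 h2 h3 h4 h5 h6 hne
  by_cases w1 : w = u
  · subst w1; rw [v4, v1]
  by_cases w2 : w = p u
  · subst w2; rw [hp, v1, v4, hp]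
  by_cases w3 : w = x
  · subst w3; rw [v5, v2, hp]
  by_cases w4 : w = p x
  · subst w4; rw [hp, v2, v5]
  by_cases w5 : w = y
  · subst w5; rw [v3, v6, hp]
  by_cases w6 : w = p y
  · subst w6; rw [hp, v6, v3]
  rw [v7 w w1 w2 w3 w4 w5 w6, v7 (p w)]
  · exact fun h => w2 (by rw [← h, hp])
  · exact fun h => w1 (by rw [← hp w, h, hp])
  · exact fun h => w4 (by rw [← h, hp])
  · exact fun h => w3 (by rw [← hp w, h, hp])
  · exact fun h => w6 (by rw [← h, hp])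
  · exact fun h => w5 (by rw [← hp w, h, hp])

theorem mu_of_comm {s s' : St Ω} {τ : Equiv.Perm Ω} (h : NA.sc s' = τ * NA.sc s) (hτ : ∀ w, τ (p w) = p (τ w)) :
    NA.mu p s' = NA.mu p s := by
  funext z
  have h1 : NA.sc s' (NA.mu p s z) = p (NA.sc s' z) := by
    rw [h, Perm.mul_apply, Pool.Agent.helper32.RW.sc_mu, hτ, Perm.mul_apply]
  rw [NA.mu_eq_pd]
  exact NA.pd_of_sc h1

theorem pd_tau {s s' : St Ω} {τ : Equiv.Perm Ω} (h : NA.sc s' = τ * NA.sc s) {w z : Ω} (hw : τ w = z) :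
    NA.pd s' z = NA.pd s w := by
  apply NA.pd_of_sc
  rw [h, Perm.mul_apply, Pool.Agent.helper32.RW.sc_pd, hw]

theorem mx_swap {s s' : St Ω} (hn : s.1.Nodup) (hn' : s'.1.Nodup) {u y : Ω} (hu : NA.MA p s u) (hy : ¬ NA.MA p s y)
    (h : ∀ v, NA.MA p s' v ↔ (NA.MA p s v ∧ v ≠ u) ∨ v = y) : NA.mx p s' = NA.mx p s := by
  rw [mx_card hn, mx_card hn']
  have e : s'.1.toFinset.filter (fun v => p v ∈ s'.2) = insert y ((s.1.toFinset.filter (fun v => p v ∈ s.2)).erase u) := by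
    ext v
    have := h v
    unfold NA.MA at this
    simp only [Finset.mem_filter, List.mem_toFinset, Finset.mem_insert, Finset.mem_erase]
    rw [this]
    tauto
  have hy' : y ∉ (s.1.toFinset.filter (fun v => p v ∈ s.2)).erase u := by
    simp only [Finset.mem_filter, List.mem_toFinset, Finset.mem_erase]
    exact fun h => hy h.2
  have hu' : u ∈ s.1.toFinset.filter (fun v => p v ∈ s.2) := by
    simp only [Finset.mem_filter, List.mem_toFinset]
    exact hu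
  rw [e, Finset.card_insert_of_notMem hy', Finset.card_erase_of_mem hu']
  have : 0 < (s.1.toFinset.filter (fun v => p v ∈ s.2)).card := Finset.card_pos.mpr ⟨u, hu'⟩
  omega

theorem D2_of_mx {s s' : St Ω} (hw : WF p s) (hw' : WF p s') (hl : (s'.1 ++ s'.2).length = (s.1 ++ s.2).length)
    (hm : NA.mx p s' = NA.mx p s) : NTS.D2 p s' = NTS.D2 p s := by
  have h1 := NA.D2_mx hw
  have h2 := NA.D2_mx hw'
  omega

/-- the situation after the attaching. -/
structure HP (p : Ω → Ω) (f : Ω) (s : St Ω) (u x y : Ω) : Prop where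
  hg : GP p f s
  ux : NA.sc s u = x
  yu : NA.sc s y = p u
  sd : (u ∈ s.1 ∧ p u ∈ s.2 ∧ NA.Red p s x ∧ NA.Blu p s y) ∨ (u ∈ s.2 ∧ p u ∈ s.1 ∧ NA.Blu p s x ∧ NA.Red p s y)
  uf : u ≠ f
  uf' : u ≠ p f

/-- the result of the step. -/
structure HR (p : Ω → Ω) (f : Ω) (s : St Ω) (u x y : Ω) (s' : St Ω) : Prop where
  rts : RTs p 6 s s'
  gp : GP p f s'
  d2 : NTS.D2 p s' = NTS.D2 p s
  perm : (s'.1 ++ s'.2).Perm (s.1 ++ s.2)
  mu : NA.mu p s' = NA.mu p s
  pdx : NA.pd s' x = NA.pd s u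
  pdpx : NA.pd s' (p x) = y
  pdu : NA.pd s' u = NA.pd s (p y)
  pdpu : NA.pd s' (p u) = NA.pd s y
  colA : u ∈ s.1 → (∀ z, NA.Red p s z → NA.Red p s' z) ∧ NA.Blu p s' u ∧ (∀ z, NA.Blu p s z → z ≠ y → z ≠ p y → NA.Blu p s' z)
  colB : u ∈ s.2 → (∀ z, NA.Blu p s z → NA.Blu p s' z) ∧ NA.Red p s' u ∧ (∀ z, NA.Red p s z → z ≠ y → z ≠ p y → NA.Red p s' z)

theorem stepH {f : Ω} {s : St Ω} {u x y : Ω} (h : HP p f s u x y) : ∃ s', HR p f s u x y s' := by
  have hg := h.hg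
  have hw := hg.wf
  have hp := hw.inv
  have hne := hw.ne
  have dj : ∀ v, v ∈ s.1 → v ∈ s.2 → False := fun v h1 h2 => Pool.Agent.helper32.RW.dj hw h1 h2
  have hcx : Cd p s x := by
    rcases h.sd with h1 | h1
    · exact Or.inl h1.2.2.1
    · exact Or.inr h1.2.2.1
  have hcy : Cd p s y := by
    rcases h.sd with h1 | h1
    · exact Or.inr h1.2.2.2
    · exact Or.inl h1.2.2.2
  have hum : u ∈ s.1 ++ s.2 := by
    rcases h.sd with h1 | h1
    · exact List.mem_append_left _ h1.1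
    · exact List.mem_append_right _ h1.1
  have hyf := cd_ne_f hg hcy
  have hpyf := cd_ne_f hg (cd_p hw hcy)
  -- distinct letters
  have n1 : u ≠ x := by
    rintro rfl
    rcases h.sd with h1 | h1
    · exact dj _ h1.2.2.1.2 h1.2.1
    · exact dj _ h1.2.1 h1.2.2.1.2
  have n2 : u ≠ p x := by
    rintro rfl
    rcases h.sd with h1 | h1
    · have := h1.2.1
      rw [hp] at this
      exact dj _ h1.2.2.1.1 this
    · have := h1.2.1
      rw [hp] at this
      exact dj _ this h1.2.2.1.1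
  have n3 : u ≠ y := by
    rintro rfl
    rcases h.sd with h1 | h1
    · exact dj _ h1.1 h1.2.2.2.1
    · exact dj _ h1.2.2.2.1 h1.1
  have n4 : u ≠ p y := by
    rintro rfl
    rcases h.sd with h1 | h1
    · exact dj _ h1.1 h1.2.2.2.2
    · exact dj _ h1.2.2.2.2 h1.1
  have n5 : x ≠ y := by
    rintro rfl
    rcases h.sd with h1 | h1
    · exact dj _ h1.2.2.1.1 h1.2.2.2.1
    · exact dj _ h1.2.2.2.1 h1.2.2.1.1
  have n6 : x ≠ p y := by
    rintro rfl
    rcases h.sd with h1 | h1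
    · exact dj _ h1.2.2.1.1 h1.2.2.2.2
    · exact dj _ h1.2.2.2.2 h1.2.2.1.1
  have n5' : p x ≠ p y := fun e => n5 (by rw [← hp x, e, hp])
  have n6' : p x ≠ y := fun e => n6 (by rw [← e, hp])
  obtain ⟨v1, v2, v3, v4, v5, v6, v7⟩ := tau_val hp n1 n2 n3 n4 n5 n6 hne
  have hO : MvO p s f u x (p y) := by
    refine ⟨hw, hg.last, hg.fA, hum, h.ux, ?_, n1, n2, n4, ?_, n6, ?_, h.uf, h.uf', hpyf.1, hpyf.2⟩
    · rw [hp]; exact h.yu
    · rw [hp]; exact n3
    · rw [hp]; exact n5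
  have hC : Col p s u x (p y) := by
    rcases h.sd with h1 | h1
    · exact .hA h1.1 h1.2.1 h1.2.2.1.2 h1.2.2.2.2
    · exact .hB h1.1 h1.2.1 h1.2.2.1.2 h1.2.2.2.2
  obtain ⟨s', r1, r2⟩ := RHO' hO hC
  have hsc : NA.sc s' = tau p u x y * NA.sc s := by
    rw [r2.sc, hp]
    simp only [tau, mul_assoc]
  have m1 : ∀ v, v ∈ s'.1 ↔ (v ∈ s.1 ∧ v ≠ u ∧ v ≠ y) ∨ (v = u ∧ p y ∈ s.1) ∨ (v = y ∧ p x ∈ s.1) := by
    intro v
    have := r2.m1 v
    rwa [hp] at this
  have m2 : ∀ v, v ∈ s'.2 ↔ (v ∈ s.2 ∧ v ≠ u ∧ v ≠ y) ∨ (v = u ∧ p y ∈ s.2) ∨ (v = y ∧ p x ∈ s.2) := by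
    intro v
    have := r2.m2 v
    rwa [hp] at this
  have hperm := r2.perm hO
  -- colours
  have colA : u ∈ s.1 → (∀ z, NA.Red p s z → NA.Red p s' z) ∧ NA.Blu p s' u ∧
      (∀ z, NA.Blu p s z → z ≠ y → z ≠ p y → NA.Blu p s' z) := by
    intro hu
    have h1 : u ∈ s.1 ∧ p u ∈ s.2 ∧ NA.Red p s x ∧ NA.Blu p s y := by
      rcases h.sd with h1 | h1
      · exact h1
      · exact absurd h1.1 (fun h' => dj _ hu h')
    obtain ⟨-, k2, k3, k4⟩ := h1
    refine ⟨fun z hz => ⟨?_, ?_⟩, ⟨?_, ?_⟩, fun z hz hzy hzpy => ⟨?_, ?_⟩⟩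
    · refine (m1 z).2 (Or.inl ⟨hz.1, ?_, ?_⟩)
      · rintro rfl; exact dj _ hz.2 k2
      · rintro rfl; exact dj _ hz.1 k4.1
    · refine (m1 _).2 (Or.inl ⟨hz.2, ?_, ?_⟩)
      · intro e
        have : p u = z := by rw [← e, hp]
        exact dj _ hz.1 (this ▸ k2)
      · intro e; exact dj _ hz.2 (e ▸ k4.1)
    · exact (m2 u).2 (Or.inr (Or.inl ⟨rfl, k4.2⟩))
    · refine (m2 _).2 (Or.inl ⟨k2, hne u, ?_⟩)
      intro e
      exact n4 (by rw [← e, hp])
    · refine (m2 z).2 (Or.inl ⟨hz.1, ?_, hzy⟩)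
      rintro rfl; exact dj _ hu hz.1
    · refine (m2 _).2 (Or.inl ⟨hz.2, ?_, ?_⟩)
      · intro e; exact dj _ hu (e ▸ hz.2)
      · intro e; exact hzpy (by rw [← e, hp])
  have colB : u ∈ s.2 → (∀ z, NA.Blu p s z → NA.Blu p s' z) ∧ NA.Red p s' u ∧
      (∀ z, NA.Red p s z → z ≠ y → z ≠ p y → NA.Red p s' z) := by
    intro hu
    have h1 : u ∈ s.2 ∧ p u ∈ s.1 ∧ NA.Blu p s x ∧ NA.Red p s y := by
      rcases h.sd with h1 | h1
      · exact absurd hu (fun h' => dj _ h1.1 h')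
      · exact h1
    obtain ⟨-, k2, k3, k4⟩ := h1
    refine ⟨fun z hz => ⟨?_, ?_⟩, ⟨?_, ?_⟩, fun z hz hzy hzpy => ⟨?_, ?_⟩⟩
    · refine (m2 z).2 (Or.inl ⟨hz.1, ?_, ?_⟩)
      · rintro rfl; exact dj _ k2 hz.2
      · rintro rfl; exact dj _ k4.1 hz.1
    · refine (m2 _).2 (Or.inl ⟨hz.2, ?_, ?_⟩)
      · intro e
        have : p u = z := by rw [← e, hp]
        exact dj _ (this ▸ k2) hz.1
      · intro e; exact dj _ k4.1 (e ▸ hz.2)
    · exact (m1 u).2 (Or.inr (Or.inl ⟨rfl, k4.2⟩))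
    · refine (m1 _).2 (Or.inl ⟨k2, hne u, ?_⟩)
      intro e
      exact n4 (by rw [← e, hp])
    · refine (m1 z).2 (Or.inl ⟨hz.1, ?_, hzy⟩)
      rintro rfl; exact dj _ hz.1 hu
    · refine (m1 _).2 (Or.inl ⟨hz.2, ?_, ?_⟩)
      · intro e; exact dj _ (e ▸ hz.2) hu
      · intro e; exact hzpy (by rw [← e, hp])
  have hw' := r2.wf
  -- the letter of `f`
  have hpf1 : p f ≠ u := fun e => h.uf' e.symm
  have hpf2 : p f ≠ y := fun e => hyf.2 e.symm
  have hfA' : p f ∈ s'.1 := (m1 _).2 (Or.inl ⟨hg.fA, hpf1, hpf2⟩)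
  have hgp : GP p f s' := by
    rcases h.sd with h1 | h1
    · obtain ⟨c1, c2, c3⟩ := colA h1.1
      exact ⟨hw', r2.last, hfA', ⟨x, c1 x h1.2.2.1⟩, ⟨u, c2⟩⟩
    · obtain ⟨c1, c2, c3⟩ := colB h1.1
      exact ⟨hw', r2.last, hfA', ⟨u, c2⟩, ⟨x, c1 x h1.2.2.1⟩⟩
  -- the number of the mixed letters
  have hmx : NA.mx p s' = NA.mx p s := by
    have hn : s.1.Nodup := (List.nodup_append.mp hw.nd).1
    have hn' : s'.1.Nodup := (List.nodup_append.mp hw'.nd).1
    rcases h.sd with ⟨k1, k2, k3, k4⟩ | ⟨k1, k2, k3, k4⟩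
    · refine mx_swap hn hn' (u := u) (y := y) ⟨k1, k2⟩ (fun h' => dj _ h'.1 k4.1) ?_
      intro v
      unfold NA.MA
      rw [m1, m2]
      constructor
      · rintro ⟨a1, a2⟩
        rcases a1 with a1 | a1 | a1
        · left
          rcases a2 with a2 | a2 | a2
          · exact ⟨⟨a1.1, a2.1⟩, a1.2.1⟩
          · exfalso
            have : v = p u := by rw [← hp v, a2.1]
            rw [this] at a1
            exact dj _ a1.1 k2
          · exfalso
            have : v = p y := by rw [← hp v, a2.1]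
            rw [this] at a1
            exact dj _ a1.1 k4.2
        · exact absurd a1.2 (fun h' => dj _ h' k4.2)
        · exact Or.inr a1.1
      · rintro (⟨⟨a1, a2⟩, a3⟩ | rfl)
        · refine ⟨Or.inl ⟨a1, a3, ?_⟩, Or.inl ⟨a2, ?_, ?_⟩⟩
          · rintro rfl; exact dj _ a1 k4.1
          · intro e
            have : v = p u := by rw [← hp v, e]
            rw [this] at a1
            exact dj _ a1 k2
          · intro e
            have : v = p y := by rw [← hp v, e]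
            rw [this] at a1
            exact dj _ a1 k4.2
        · exact ⟨Or.inr (Or.inr ⟨rfl, k3.2⟩), Or.inl ⟨k4.2, fun e => n4 e.symm, hne _⟩⟩
    · refine mx_swap hn hn' (u := p u) (y := p y) ⟨k2, by rw [hp]; exact k1⟩ (fun h' => by
        have := h'.2
        rw [hp] at this
        exact dj _ k4.1 this) ?_
      intro v
      unfold NA.MA
      rw [m1, m2]
      constructor
      · rintro ⟨a1, a2⟩
        rcases a2 with a2 | a2 | a2
        · left
          rcases a1 with a1 | a1 | a1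
          · refine ⟨⟨a1.1, a2.1⟩, ?_⟩
            intro e
            exact a2.2.1 (by rw [e, hp])
          · exfalso
            rw [a1.1] at a2
            exact dj _ k2 a2.1
          · exfalso
            rw [a1.1] at a2
            exact dj _ k4.2 a2.1
        · exact absurd a2.2 (fun h' => dj _ k4.2 h')
        · right
          rw [← hp v, a2.1]
      · rintro (⟨⟨a1, a2⟩, a3⟩ | rfl)
        · refine ⟨Or.inl ⟨a1, ?_, ?_⟩, Or.inl ⟨a2, ?_, ?_⟩⟩
          · rintro rfl; exact dj _ a1 k1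
          · rintro rfl; exact dj _ k4.2 a2
          · intro e
            exact a3 (by rw [← hp v, e])
          · intro e; exact dj _ k4.1 (e ▸ a2)
        · exact ⟨Or.inl ⟨k4.2, fun e => n4 e.symm, hne _⟩, Or.inr (Or.inr ⟨hp _, k3.2⟩)⟩
  refine ⟨s', r1, hgp, D2_of_mx hw hw' hperm.length_eq hmx, hperm, mu_of_comm hsc (tau_comm hp n1 n2 n3 n4 n5 n6 hne),
    pd_tau hsc v1, ?_, pd_tau hsc v3, pd_tau hsc v6, colA, colB⟩
  rw [pd_tau hsc v4]
  exact NA.pd_of_sc h.yu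

end Pool.Agent.helper36.T1
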