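import Pool.Agent.helper36.T1.H
import Pool.Agent.helper3.NA.StepH2

/-!
# MP_c8d30a, exponent 12, II.6: the core is not run-reversed
-/

set_option autoImplicit false

namespace Pool.Agent.helper36.T1

open NTH Pool.Agent.helper32.RH Equiv
open NP (Cd MD Cp Fr wk Stop)

variable {Ω : Type} [DecidableEq Ω] {p : Ω → Ω}

theorem gnd_cls {s : St Ω} {E : Ω → Ω → Prop} (hE : Equivalence E) (hc : ∀ t, Cd p s t → E t (NA.pd s t)) {t g : Ω}
    (h : NA.Gnd p s t g) : E t g := by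
  induction h with
  | selfA t h => exact hE.refl t
  | selfB t h => exact hE.refl t
  | red t g h h' ih => exact hE.trans (hc t (Or.inl h)) ih
  | blu t g h h' ih => exact hE.trans (hc t (Or.inr h)) ih

/-- a word with a mixed token is not a cycle of two tokens of one letter. -/
theorem not_two {f : Ω} {s : St Ω} (hg : GP p f s) {x : Ω} (hx : Cd p s x) : ¬ (NA.sc s x = p x ∧ NA.sc s (p x) = x) := by
  rintro ⟨h1, h2⟩
  have hw := hg.wf
  have hn1 : s.1.Nodup := (List.nodup_append.mp hw.nd).1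
  have hn2 : s.2.Nodup := (List.nodup_append.mp hw.nd).2.1
  have key : ∀ (l : List Ω) (g : Ω), l.Nodup → x ∈ l → p x ∈ l → g ∈ l → (∀ v ∈ l, NA.sc s v = l.formPerm v) → g = x ∨ g = p x := by
    intro l g hl hxl hpxl hgl hsc
    have hc := List.Nodup.isCycleOn_formPerm hl
    obtain ⟨k, hk⟩ := hc.2 (x := x) hxl (y := g) hgl
    have e1 : l.formPerm x = p x := by rw [← hsc x hxl]; exact h1
    have e2 : l.formPerm (p x) = x := by rw [← hsc _ hpxl]; exact h2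
    have e1' : (l.formPerm)⁻¹ (p x) = x := by rw [Perm.inv_eq_iff_eq]; exact e1.symm
    have e2' : (l.formPerm)⁻¹ x = p x := by rw [Perm.inv_eq_iff_eq]; exact e2.symm
    have hst : ∀ k : ℤ, (l.formPerm ^ k) x = x ∨ (l.formPerm ^ k) x = p x := by
      intro k
      induction k using Int.induction_on with
      | zero => left; simp
      | succ i ih =>
        rw [add_comm, zpow_one_add, Perm.mul_apply]
        rcases ih with ih | ih <;> rw [ih]
        · exact Or.inr e1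
        · exact Or.inl e2
      | pred i ih =>
        rw [sub_eq_neg_add, zpow_add, zpow_neg_one, Perm.mul_apply]
        rcases ih with ih | ih <;> rw [ih]
        · exact Or.inr e2'
        · exact Or.inl e1'
    rw [← hk]
    exact hst k
  have hfx := cd_ne_f hg hx
  have hpfx := cd_ne_f hg (cd_p hw hx)
  rcases hx with hx | hx
  · rcases key s.1 (p f) hn1 hx.1 hx.2 hg.fA (fun v hv => NA.sc_A hw.nd hv) with h | h
    · exact hfx.2 h.symm
    · exact hpfx.2 h.symm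
  · have hfB : f ∈ s.2 := by
      obtain ⟨Y, hY⟩ := List.getLast?_eq_some_iff.mp hg.last
      rw [hY]; simp
    rcases key s.2 f hn2 hx.1 hx.2 hfB (fun v hv => NA.sc_B hw.nd hv) with h | h
    · exact hfx.1 h.symm
    · exact hpfx.1 h.symm

/-- a token with a mixed predecessor. -/
theorem ex_pd {f : Ω} {s : St Ω} (hg : GP p f s) (hA : ¬ Adj p s) {x : Ω} (hx : Cd p s x) :
    ∃ x', (x' = x ∨ x' = p x) ∧ ¬ Cd p s (NA.pd s x') := by
  have hw := hg.wf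
  by_contra hcon
  push Not at hcon
  have h1 := hcon x (Or.inl rfl)
  have h2 := hcon (p x) (Or.inr rfl)
  have key : ∀ t, Cd p s t → Cd p s (NA.pd s t) → NA.pd s t = p t := by
    intro t ht hpt
    by_contra hne
    refine hA ⟨NA.pd s t, hpt, by rw [Pool.Agent.helper32.RW.sc_pd]; exact ht, fun h => hne ?_⟩
    rw [Pool.Agent.helper32.RW.sc_pd] at h
    have h3 := congrArg p h
    rw [hw.inv] at h3
    exact h3.symm
  have e1 := key x hx h1
  have e2 := key (p x) (cd_p hw hx) h2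
  rw [hw.inv] at e2
  refine not_two hg hx ⟨?_, ?_⟩
  · rw [← e2, Pool.Agent.helper32.RW.sc_pd, e2]
  · rw [← e1, Pool.Agent.helper32.RW.sc_pd]

/-- a token with a mixed successor. -/
theorem ex_sc {f : Ω} {s : St Ω} (hg : GP p f s) (hA : ¬ Adj p s) {x : Ω} (hx : Cd p s x) :
    ∃ x', (x' = x ∨ x' = p x) ∧ ¬ Cd p s (NA.sc s x') := by
  have hw := hg.wf
  by_contra hcon
  push Not at hcon
  have h1 := hcon x (Or.inl rfl)
  have h2 := hcon (p x) (Or.inr rfl)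
  have key : ∀ t, Cd p s t → Cd p s (NA.sc s t) → NA.sc s t = p t := by
    intro t ht hpt
    by_contra hne
    exact hA ⟨t, ht, hpt, hne⟩
  have e1 := key x hx h1
  have e2 := key (p x) (cd_p hw hx) h2
  rw [hw.inv] at e2
  exact not_two hg hx ⟨e1, e2⟩

omit [DecidableEq Ω] in
/-- an uncoloured token is mixed. -/
theorem mixed_of {s : St Ω} (hw : WF p s) {t : Ω} (h : t ∈ s.1 ++ s.2) (hn : ¬ Cd p s t) :
    (t ∈ s.1 → p t ∈ s.2) ∧ (t ∈ s.2 → p t ∈ s.1) := by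
  have h2 := mem_cases (hw.cl _ h)
  refine ⟨fun h1 => ?_, fun h1 => ?_⟩
  · rcases h2 with h2 | h2
    · exact absurd (Or.inl ⟨h1, h2⟩) hn
    · exact h2
  · rcases h2 with h2 | h2
    · exact h2
    · exact absurd (Or.inr ⟨h1, h2⟩) hn

/-- the step and the walk. -/
theorem main_case {f : Ω} {s : St Ω} (hg : GP p f s) (hA : ¬ Adj p s) {X Y z : Ω}
    (hXY : (NA.Red p s X ∧ NA.Blu p s Y) ∨ (NA.Blu p s X ∧ NA.Red p s Y)) (hz : Cd p s z) (z1 : z ≠ X) (z2 : z ≠ p X)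
    (z3 : z ≠ Y) (z4 : z ≠ p Y) {E : Ω → Ω → Prop} (hE : Equivalence E) (hEp : ∀ t, E t (p t))
    (hEm : ∀ t, E t (NA.mu p s t)) (hEc : ∀ t, Cd p s t → E t (NA.pd s t)) (hne : ¬ E X Y)
    (hR : ¬ NA.RR (NA.cA p s) (NA.cB p s)) (hu : ¬ Cd p s (NA.pd s X)) (huf : NA.pd s X ≠ f) (huf' : NA.pd s X ≠ p f) :
    ∃ n ≤ 2 * (s.1 ++ s.2).length + 1, ∃ s' : St Ω, RTs p (6 * n) s s' ∧ GP p f s' ∧
      (s'.1 ++ s'.2).Perm (s.1 ++ s.2) ∧ NTS.D2 p s' = NTS.D2 p s ∧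
      NA.mu p s' = NA.mu p s ∧ Adj p s' := by
  have hw := hg.wf
  have hp := hw.inv
  have hcX : Cd p s X := by
    rcases hXY with h | h
    · exact Or.inl h.1
    · exact Or.inr h.1
  have hcY : Cd p s Y := by
    rcases hXY with h | h
    · exact Or.inr h.2
    · exact Or.inl h.2
  obtain ⟨Y', hY', hsY⟩ := ex_sc hg hA hcY
  have hcY' : Cd p s Y' := by
    rcases hY' with rfl | rfl
    · exact hcY
    · exact cd_p hw hcY
  have hXY' : (NA.Red p s X ∧ NA.Blu p s Y') ∨ (NA.Blu p s X ∧ NA.Red p s Y') := by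
    rcases hY' with rfl | rfl
    · exact hXY
    · rcases hXY with h | h
      · exact Or.inl ⟨h.1, h.2.2, by rw [hp]; exact h.2.1⟩
      · exact Or.inr ⟨h.1, h.2.2, by rw [hp]; exact h.2.1⟩
  have hEY : E Y' Y := by
    rcases hY' with rfl | rfl
    · exact hE.refl _
    · exact hE.symm (hEp _)
  have hne' : ¬ E X Y' := fun h => hne (hE.trans h hEY)
  have z3' : z ≠ Y' := by rcases hY' with rfl | rfl <;> assumption
  have z4' : z ≠ p Y' := by
    rcases hY' with rfl | rfl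
    · exact z4
    · rw [hp]; exact z3
  set u := NA.pd s X with hudef
  have hum : u ∈ s.1 ++ s.2 := mem_pd hw (cd_mem hcX)
  have hmix := mixed_of hw hum hu
  have hEXu : E X u := hEc X hcX
  have hscm : NA.sc s Y' ∈ s.1 ++ s.2 := mem_sc hw (cd_mem hcY')
  have hmixY := mixed_of hw hscm hsY
  -- the attaching
  have att : ∃ t, NA.Pa p 0 s t ∧ NA.sc t Y' = p u ∧ NA.sc t (NA.mu p s Y') = u := by
    rcases hXY' with ⟨h1, h2⟩ | ⟨h1, h2⟩
    · have hu1 : u ∈ s.1 := (NA.pd_mem_A hw.nd).2 h1.1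
      have hs2 : NA.sc s Y' ∈ s.2 := (NA.sc_mem_B hw.nd).2 h2.1
      have hps : p (NA.sc s Y') ∈ s.1 := hmixY.2 hs2
      obtain ⟨t, k1, k2, k3⟩ := NAW.att p s (NA.mu p s Y') Y' u hw hR ((Pool.Agent.helper32.RW.muA hw).2 hps) h2.1 rfl ⟨hs2, hps⟩
        ⟨hu1, hmix.1 hu1⟩ (fun h => hne' (hE.trans hEXu (hE.symm (hE.trans (hEm Y') (gnd_cls hE hEc h)))))
        (fun h => hne' (hE.trans hEXu (hE.trans (hEp u) (hE.symm (gnd_cls hE hEc h)))))
      exact ⟨t, k1, k3, k2⟩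
    · have hu1 : u ∈ s.2 := (NA.pd_mem_B hw.nd).2 h1.1
      have hs2 : NA.sc s Y' ∈ s.1 := (NA.sc_mem_A hw.nd).2 h2.1
      have hps : p (NA.sc s Y') ∈ s.2 := hmixY.1 hs2
      obtain ⟨t, k1, k2, k3⟩ := NAW.att p s Y' (NA.mu p s Y') (p u) hw hR h2.1 ((Pool.Agent.helper32.RW.muB hw).2 hps) (Pool.Agent.helper32.RW.mu_mu' hw Y')
        ⟨by rw [Pool.Agent.helper32.RW.sc_mu]; exact hps, by rw [Pool.Agent.helper32.RW.sc_mu, hp]; exact hs2⟩ ⟨hmix.2 hu1, by rw [hp]; exact hu1⟩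
        (fun h => hne' (hE.trans hEXu (hE.trans (hEp u) (hE.symm (gnd_cls hE hEc h)))))
        (fun h => hne' (hE.trans hEXu (hE.symm (hE.trans (hEm Y') (by
          have := gnd_cls hE hEc h
          rwa [hp] at this)))))
      exact ⟨t, k1, k2, by rw [k3, hp]⟩
  obtain ⟨s1, hpa, a1, a2⟩ := att
  have hw1 := hpa.wf hw
  have hz1 := hpa.zero rfl
  have hcd1 : ∀ v, Cd p s1 v ↔ Cd p s v := by
    intro v
    unfold Cd
    rw [hpa.red0 v, hpa.blu0 v]
  have hpd1 : ∀ v, Cd p s v → NA.pd s1 v = NA.pd s v := fun v hv => hpa.pd0 rfl hw hv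
  have hmu1 : NA.mu p s1 = NA.mu p s := hpa.mu hp hw.nd
  have hperm1 : (s1.1 ++ s1.2).Perm (s.1 ++ s.2) := hpa.perm.symm
  have hg1 : GP p f s1 := by
    obtain ⟨r, hr⟩ := hg.red
    obtain ⟨b, hb⟩ := hg.blu
    exact ⟨hw1, by rw [hpa.last]; exact hg.last, (hz1.1.mem_iff).1 hg.fA, ⟨r, (hpa.red0 r).2 hr⟩, ⟨b, (hpa.blu0 b).2 hb⟩⟩
  have hrts0 : RTs p 0 s s1 := by
    intro e he he'
    obtain ⟨r, hr⟩ := hg.red
    obtain ⟨b, hb⟩ := hg.blu
    have hN : N p (s.1 ++ [p e], e :: s.2) := ⟨⟨r, List.mem_append_left _ hr.1, List.mem_append_left _ hr.2⟩,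
      ⟨b, List.mem_cons_of_mem _ hb.1, List.mem_cons_of_mem _ hb.2⟩⟩
    have := pa_rtn hp e hpa hN
    simpa using this
  have hD1 : NTS.D2 p s1 = NTS.D2 p s := (NTS.D2_perm hz1.1 hz1.2).symm
  have hHP : HP p f s1 u X Y' := by
    refine ⟨hg1, ?_, a1, ?_, huf, huf'⟩
    · have : NA.pd s1 X = u := hpd1 X hcX
      rw [← this, Pool.Agent.helper32.RW.sc_pd]
    · rcases hXY' with ⟨h1, h2⟩ | ⟨h1, h2⟩
      · have hu1 : u ∈ s.1 := (NA.pd_mem_A hw.nd).2 h1.1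
        exact Or.inl ⟨(hz1.1.mem_iff).1 hu1, (hz1.2.mem_iff).1 (hmix.1 hu1), (hpa.red0 X).2 h1, (hpa.blu0 Y').2 h2⟩
      · have hu1 : u ∈ s.2 := (NA.pd_mem_B hw.nd).2 h1.1
        exact Or.inr ⟨(hz1.2.mem_iff).1 hu1, (hz1.1.mem_iff).1 (hmix.2 hu1), (hpa.blu0 X).2 h1, (hpa.red0 Y').2 h2⟩
  obtain ⟨s2, r⟩ := stepH hHP
  have hmu2 : NA.mu p s2 = NA.mu p s := r.mu.trans hmu1
  have hperm2 := r.perm.trans hperm1
  have hlen2 : (s2.1 ++ s2.2).length = (s.1 ++ s.2).length := hperm2.length_eq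
  have hpdX : NA.pd s2 X = NA.mu p s Y' := by
    rw [r.pdx]
    exact NA.pd_of_sc a2
  have hpdu : NA.pd s2 u = NA.pd s (p Y') := by
    rw [r.pdu, hpd1 _ (cd_p hw hcY')]
  have hEm2 : ∀ t, E t (NA.mu p s2 t) := by
    intro t
    rw [hmu2]
    exact hEm t
  have zu : z ≠ u := fun e => hu (e ▸ hz)
  have zpu : z ≠ p u := fun e => hu (by
    have := cd_p hw hz
    rw [e, hp] at this
    exact this)
  have uX : u ≠ X := fun e => hu (e.symm ▸ hcX)
  have upX : u ≠ p X := fun e => hu (e.symm ▸ cd_p hw hcX)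
  have Xu : X ≠ u := uX.symm
  have Xpu : X ≠ p u := fun e => upX (by rw [e, hp])
  have nX : ¬ E X (NA.pd s2 X) := by
    rw [hpdX]
    exact fun h => hne' (hE.trans h (hE.symm (hEm Y')))
  have nu : ¬ E u (NA.pd s2 u) := by
    rw [hpdu]
    exact fun h => hne' (hE.trans hEXu (hE.trans h (hE.trans (hE.symm (hEc _ (cd_p hw hcY'))) (hE.symm (hEp Y')))))
  -- one of the letters can walk
  have hwalk : ∃ c, Cd p s2 c ∧ Fr p s2 c ∧ ¬ E c (NA.pd s2 c) := by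
    rcases hXY' with ⟨h1, h2⟩ | ⟨h1, h2⟩
    · have hu1 : u ∈ s1.1 := (hz1.1.mem_iff).1 ((NA.pd_mem_A hw.nd).2 h1.1)
      obtain ⟨c1, c2, c3⟩ := r.colA hu1
      have cX := c1 X ((hpa.red0 X).2 h1)
      rcases hz with hz | hz
      · have cz := c1 z ((hpa.red0 z).2 hz)
        exact ⟨X, Or.inl cX, ⟨⟨z, cz, z1, z2⟩, ⟨u, c2, uX, upX⟩⟩, nX⟩
      · have cz := c3 z ((hpa.blu0 z).2 hz) z3' z4'
        exact ⟨u, Or.inr c2, ⟨⟨X, cX, Xu, Xpu⟩, ⟨z, cz, zu, zpu⟩⟩, nu⟩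
    · have hu1 : u ∈ s1.2 := (hz1.2.mem_iff).1 ((NA.pd_mem_B hw.nd).2 h1.1)
      obtain ⟨c1, c2, c3⟩ := r.colB hu1
      have cX := c1 X ((hpa.blu0 X).2 h1)
      rcases hz with hz | hz
      · have cz := c3 z ((hpa.red0 z).2 hz) z3' z4'
        exact ⟨u, Or.inl c2, ⟨⟨z, cz, zu, zpu⟩, ⟨X, cX, Xu, Xpu⟩⟩, nu⟩
      · have cz := c1 z ((hpa.blu0 z).2 hz)
        exact ⟨X, Or.inr cX, ⟨⟨u, c2, uX, upX⟩, ⟨z, cz, z1, z2⟩⟩, nX⟩
  obtain ⟨c, hc1, hc2, hc3⟩ := hwalk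
  obtain ⟨n, hn, s3, w1, w2, w2', w3, w4, w5⟩ := contact_split r.gp hc1 hc2 hE hEp hEm2 hc3
  rw [hlen2] at hn
  refine ⟨n + 1, by omega, s3, ?_, w2, w2'.trans hperm2, w3.trans (r.d2.trans hD1), w4.trans hmu2, w5⟩
  have h1 := (hrts0.trans r.rts hperm1).trans w1 hperm2
  exact h1.mono (by omega)

/-- **II.6**: the core is not run-reversed, `x` red and `y` blue are not equivalent, there is a third letter. -/
theorem II6 {f : Ω} {s : St Ω} (hg : GP p f s) {x y z : Ω}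
    (hx : NA.Red p s x) (hy : NA.Blu p s y) (hz : Cd p s z) (z1 : z ≠ x) (z2 : z ≠ p x)
    (z3 : z ≠ y) (z4 : z ≠ p y) {E : Ω → Ω → Prop} (hE : Equivalence E) (hEp : ∀ t, E t (p t))
    (hEm : ∀ t, E t (NA.mu p s t)) (hEc : ∀ t, Cd p s t → E t (NA.pd s t)) (hne : ¬ E x y)
    (hR : ¬ NA.RR (NA.cA p s) (NA.cB p s)) :
    ∃ n ≤ 2 * (s.1 ++ s.2).length + 1, ∃ s' : St Ω, RTs p (6 * n) s s' ∧ GP p f s' ∧
      (s'.1 ++ s'.2).Perm (s.1 ++ s.2) ∧ NTS.D2 p s' = NTS.D2 p s ∧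
      NA.mu p s' = NA.mu p s ∧ Adj p s' := by
  have hw := hg.wf
  have hp := hw.inv
  by_cases hA : Adj p s
  · obtain ⟨r, hr⟩ := hg.red
    obtain ⟨b, hb⟩ := hg.blu
    exact ⟨0, Nat.zero_le _, s, RTs.refl ⟨r, hr.1, hr.2⟩ ⟨b, hb.1, hb.2⟩, hg, List.Perm.refl _, rfl, rfl, hA⟩
  obtain ⟨x', hx', h1⟩ := ex_pd hg hA (Or.inl hx)
  obtain ⟨y', hy', h2⟩ := ex_pd hg hA (Or.inr hy)
  have hrx' : NA.Red p s x' := by
    rcases hx' with rfl | rfl
    · exact hx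
    · exact ⟨hx.2, by rw [hp]; exact hx.1⟩
  have hby' : NA.Blu p s y' := by
    rcases hy' with rfl | rfl
    · exact hy
    · exact ⟨hy.2, by rw [hp]; exact hy.1⟩
  have hEx : E x' x := by
    rcases hx' with rfl | rfl
    · exact hE.refl _
    · exact hE.symm (hEp _)
  have hEy : E y' y := by
    rcases hy' with rfl | rfl
    · exact hE.refl _
    · exact hE.symm (hEp _)
  have hne' : ¬ E x' y' := fun h => hne (hE.trans (hE.symm hEx) (hE.trans h hEy))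
  have z1' : z ≠ x' := by rcases hx' with rfl | rfl <;> assumption
  have z2' : z ≠ p x' := by
    rcases hx' with rfl | rfl
    · exact z2
    · rw [hp]; exact z1
  have z3' : z ≠ y' := by rcases hy' with rfl | rfl <;> assumption
  have z4' : z ≠ p y' := by
    rcases hy' with rfl | rfl
    · exact z4
    · rw [hp]; exact z3
  by_cases f1 : NA.pd s x' ≠ f ∧ NA.pd s x' ≠ p f
  · exact main_case hg hA (Or.inl ⟨hrx', hby'⟩) hz z1' z2' z3' z4' hE hEp hEm hEc hne' hR h1 f1.1 f1.2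
  by_cases f2 : NA.pd s y' ≠ f ∧ NA.pd s y' ≠ p f
  · exact main_case hg hA (Or.inr ⟨hby', hrx'⟩) hz z3' z4' z1' z2' hE hEp hEm hEc (fun h => hne' (hE.symm h)) hR h2 f2.1 f2.2
  exfalso
  apply hne'
  have k1 : E x' f := by
    have h3 := hEc x' (Or.inl hrx')
    by_cases h4 : NA.pd s x' = f
    · rw [h4] at h3; exact h3
    · have h5 : NA.pd s x' = p f := by
        by_contra h6
        exact f1 ⟨h4, h6⟩
      rw [h5] at h3
      exact hE.trans h3 (hE.symm (hEp f))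
  have k2 : E y' f := by
    have h3 := hEc y' (Or.inr hby')
    by_cases h4 : NA.pd s y' = f
    · rw [h4] at h3; exact h3
    · have h5 : NA.pd s y' = p f := by
        by_contra h6
        exact f2 ⟨h4, h6⟩
      rw [h5] at h3
      exact hE.trans h3 (hE.symm (hEp f))
  exact hE.trans k1 (hE.symm k2)

end Pool.Agent.helper36.T1
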