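import Pool.Agent.helper14.NTN.Shift
import Pool.Agent.helper72.T1.CL
import Pool.Agent.helper36.T1.II6

/-!
# MP_c8d30a, exponent 12: the assembly of PART II
-/

set_option autoImplicit false

namespace Pool.Agent.helper36.T1

open NTH Pool.Agent.helper32.RH Equiv
open T1C (DG)

/-- the cases for a state with at least two letters of each colour. -/
def CasesS (KG : ℕ) : Prop := ∀ (Ω : Type) [DecidableEq Ω] (p : Ω → Ω) (f : Ω) (s : St Ω), GP p f s → 8 ≤ NTS.D2 p s →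
  Two p s → (∃ n ≤ 2 * (s.1 ++ s.2).length + 1, ∃ s' : St Ω, RTs p (6 * n) s s' ∧ GP p f s' ∧
    (s'.1 ++ s'.2).Perm (s.1 ++ s.2) ∧ NTS.D2 p s' = NTS.D2 p s ∧ Adj p s') ∨ DG p KG f s

/-- the contact lemma. -/
def CLS (K : ℕ) : Prop := ∀ (Ω : Type) [DecidableEq Ω] (p r : Ω → Ω) (f : Ω) (s : St Ω), GP p f s → Adj p s →
  DG p K f s ∨ Low p r f (NTS.D2 p s + 6) 1 s

theorem Low_mono {Ω : Type} [DecidableEq Ω] {p r : Ω → Ω} {f : Ω} {K K' n n' : ℕ} {s : St Ω} (h : Low p r f K n s)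
    (hK : K ≤ K') (hn : n ≤ n') : Low p r f K' n' s := by
  obtain ⟨l, h1, h2⟩ := h
  exact ⟨l, h1.trans hn, fun z hz hd => Wr_mono hK (fun x hx => hx) (h2 z hz hd)⟩

/-- the number of coloured tokens is even. -/
theorem D2_even {Ω : Type} [DecidableEq Ω] {p : Ω → Ω} {s : St Ω} (hw : WF p s) : Even (NTS.D2 p s) := by
  rw [NP.D2_card hw]
  have key : ∀ n (T : Finset Ω), T.card = n → (∀ t ∈ T, p t ∈ T) → Even T.card := by
    intro n
    induction n using Nat.strong_induction_on with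
    | _ n ih =>
      intro T hT hp
      rcases T.eq_empty_or_nonempty with rfl | ⟨t, ht⟩
      · simp
      · have h1 : p t ∈ T.erase t := Finset.mem_erase.mpr ⟨hw.ne t, hp t ht⟩
        have h2 : ((T.erase t).erase (p t)).card + 2 = T.card := by
          have e1 := Finset.card_erase_of_mem ht
          have e2 := Finset.card_erase_of_mem h1
          have e3 : 0 < T.card := Finset.card_pos.mpr ⟨t, ht⟩
          have e4 : 0 < (T.erase t).card := Finset.card_pos.mpr ⟨_, h1⟩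
          omega
        have h3 : Even ((T.erase t).erase (p t)).card := by
          refine ih _ (by omega) _ rfl (fun u hu => ?_)
          rw [Finset.mem_erase, Finset.mem_erase] at hu ⊢
          refine ⟨fun h => hu.2.1 ?_, fun h => hu.1 ?_, hp u hu.2.2⟩
          · rw [← hw.inv u, h, hw.inv]
          · rw [← h, hw.inv]
        rw [← h2]
        exact h3.add (by decide)
  refine key _ _ rfl (fun t ht => ?_)
  rw [NP.mem_CS] at ht ⊢
  exact ht.pr hw

/-- **PART II** from the cases and the contact lemma. -/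
theorem PartII_of {KG K : ℕ} (hC : CasesS KG) (hL : CLS K) (c : ℕ) : PartII c (c + 6) (KG + K + 24) := by
  intro Ω _ p r f s hg h6 hc hcan
  have hw := hg.wf
  have h8 : 8 ≤ NTS.D2 p s := by
    obtain ⟨k, hk⟩ := D2_even hw
    omega
  set L := (s.1 ++ s.2).length with hLdef
  have bud : ∀ a : ℕ, a ≤ 6 + 6 * (2 * L + 1) + (KG + K) → a ≤ (KG + K + 24) * (L + 1) ^ 2 := by
    intro a ha
    refine ha.trans ?_
    have h1 : 1 ≤ (L + 1) ^ 2 := Nat.one_le_pow _ _ (by omega)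
    have h2 : L + 1 ≤ (L + 1) ^ 2 := by nlinarith
    have h3 : (KG + K) * 1 ≤ (KG + K) * (L + 1) ^ 2 := Nat.mul_le_mul_left _ h1
    nlinarith
  -- from a contact
  have fin : ∀ (a : ℕ) (s1 : St Ω), a ≤ 6 + 6 * (2 * L + 1) → RTs p a s s1 → GP p f s1 → (s1.1 ++ s1.2).Perm (s.1 ++ s.2) →
      NTS.D2 p s1 = NTS.D2 p s → Adj p s1 → ∃ s', RTs p ((KG + K + 24) * (L + 1) ^ 2) s s' ∧ GP p f s' ∧
        (NTS.D2 p s' < NTS.D2 p s ∨ (NTS.D2 p s' ≤ c ∧ Low p r f (c + 6) 3 s')) := by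
    intro a s1 ha h1 h2 h3 h4 h5
    rcases hL Ω p r f s1 h2 h5 with ⟨s2, k1, k2, k3, k4⟩ | h6
    · exact ⟨s2, (h1.trans k1 h3).mono (bud _ (by omega)), k2, Or.inl (by omega)⟩
    · refine ⟨s1, h1.mono (bud _ (by omega)), h2, Or.inr ⟨by omega, Low_mono h6 (by omega) (by omega)⟩⟩
  rcases shift hg h8 with hA | ⟨s1, h1, h2, h3, h4, h5⟩
  · have hrf : RTs p 0 s s := by
      obtain ⟨x, hx⟩ := hg.red
      obtain ⟨b, hb⟩ := hg.blu
      exact RTs.refl ⟨x, hx.1, hx.2⟩ ⟨b, hb.1, hb.2⟩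
    exact fin 0 s (by omega) hrf hg (List.Perm.refl _) rfl hA
  · have hlen : (s1.1 ++ s1.2).length = L := h3.length_eq
    rcases hC Ω p f s1 h2 (by omega) h5 with ⟨n, hn, s2, k1, k2, k3, k4, k5⟩ | ⟨s2, k1, k2, k3, k4⟩
    · rw [hlen] at hn
      exact fin (6 + 6 * n) s2 (by omega) (h1.trans k1 h3) k2 (k3.trans h3) (k4.trans h4) k5
    · exact ⟨s2, (h1.trans k1 h3).mono (bud _ (by omega)), k2, Or.inl (by omega)⟩

end Pool.Agent.helper36.T1
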