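import Pool.Agent.helper36.T1.Dir
import Pool.Agent.helper3.NP.Walk
import Pool.Agent.helper32.RH.Drop
import Pool.Agent.helper32.NA.ATT
import Pool.Agent.helper32.RW.Basic

/-!
# MP_c8d30a, exponent 12, II.6: a letter with its two defects on different cycles reaches a contact
-/

set_option autoImplicit false

namespace Pool.Agent.helper36.T1

open NTH Pool.Agent.helper32.RH
open NP (Cd MD Cp Fr wk Stop)

variable {Ω : Type} [DecidableEq Ω] {p : Ω → Ω}

/-- adjacent coloured tokens of different letters. -/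
def Adj (p : Ω → Ω) (s : St Ω) : Prop := ∃ t, Cd p s t ∧ Cd p s (NA.sc s t) ∧ NA.sc s t ≠ p t

omit [DecidableEq Ω] in
theorem wk_nx {m : Ω → Ω} (n : ℕ) : ∀ (u v : Ω),
    ((nx p m)^[n] (u, false) = ((wk p m n (u, v)).1, false) ∧ (nx p m)^[n] (v, true) = ((wk p m n (u, v)).2, true)) ∨
    ((nx p m)^[n] (u, false) = ((wk p m n (u, v)).2, true) ∧ (nx p m)^[n] (v, true) = ((wk p m n (u, v)).1, false)) := by
  induction n with
  | zero => exact fun u v => Or.inl ⟨rfl, rfl⟩
  | succ n ih =>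
    intro u v
    simp only [Function.iterate_succ_apply, nx_false, nx_true, wk]
    rcases ih (p v) (m u) with h | h
    · exact Or.inr ⟨h.2, h.1⟩
    · exact Or.inl ⟨h.2, h.1⟩

omit [DecidableEq Ω] in
theorem nx_cls {m : Ω → Ω} {R : Ω → Ω → Prop} (hR : Equivalence R) (hRp : ∀ t, R t (p t)) (hRm : ∀ t, R t (m t)) (n : ℕ) :
    ∀ xi : Ω × Bool, R xi.1 ((nx p m)^[n] xi).1 := by
  induction n with
  | zero => exact fun xi => hR.refl _
  | succ n ih =>
    intro xi
    rw [Function.iterate_succ_apply]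
    refine hR.trans ?_ (ih _)
    obtain ⟨w, k⟩ := xi
    cases k with
    | true => exact hRp w
    | false => exact hRm w

section toolbox

omit [DecidableEq Ω] in
theorem mem_cases {s : St Ω} {t : Ω} (h : t ∈ s.1 ++ s.2) : t ∈ s.1 ∨ t ∈ s.2 := List.mem_append.mp h

omit [DecidableEq Ω] in
theorem not1 {s : St Ω} {t : Ω} (h : t ∈ s.1 ++ s.2) (h1 : t ∉ s.1) : t ∈ s.2 :=
  (mem_cases h).resolve_left h1

theorem mem_sc {s : St Ω} (hw : WF p s) {t : Ω} (h : t ∈ s.1 ++ s.2) : NA.sc s t ∈ s.1 ++ s.2 := by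
  rcases mem_cases h with h | h
  · exact List.mem_append_left _ ((NA.sc_mem_A hw.nd).2 h)
  · exact List.mem_append_right _ ((NA.sc_mem_B hw.nd).2 h)

theorem mem_pd {s : St Ω} (hw : WF p s) {t : Ω} (h : t ∈ s.1 ++ s.2) : NA.pd s t ∈ s.1 ++ s.2 := by
  rcases mem_cases h with h | h
  · exact List.mem_append_left _ ((NA.pd_mem_A hw.nd).2 h)
  · exact List.mem_append_right _ ((NA.pd_mem_B hw.nd).2 h)

theorem mem_mu {s : St Ω} (hw : WF p s) {t : Ω} (h : t ∈ s.1 ++ s.2) : NA.mu p s t ∈ s.1 ++ s.2 := by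
  rw [NA.mu_eq_pd]
  exact mem_pd hw (hw.cl _ (mem_sc hw h))

/-- a token with its partner in the same word is coloured. -/
theorem cd_of {s : St Ω} (hw : WF p s) {t : Ω} (h : t ∈ s.1 ++ s.2)
    (hD : decide (t ∈ s.1) = decide (p t ∈ s.1)) : Cd p s t := by
  have h2 := hw.cl _ h
  by_cases h1 : t ∈ s.1
  · rw [decide_eq_true h1] at hD
    exact Or.inl ⟨h1, of_decide_eq_true hD.symm⟩
  · rw [decide_eq_false h1] at hD
    exact Or.inr ⟨not1 h h1, not1 h2 (of_decide_eq_false hD.symm)⟩

theorem md_of {s : St Ω} (hw : WF p s) {t : Ω} (h : t ∈ s.1 ++ s.2)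
    (hD : decide (t ∈ s.1) = decide (NA.mu p s t ∈ s.1)) : MD p s t := by
  have h2 := mem_mu hw h
  by_cases h1 : t ∈ s.1
  · rw [decide_eq_true h1] at hD
    exact Or.inl ⟨h1, of_decide_eq_true hD.symm⟩
  · rw [decide_eq_false h1] at hD
    exact Or.inr ⟨not1 h h1, not1 h2 (of_decide_eq_false hD.symm)⟩

omit [DecidableEq Ω] in
theorem cd_mem {s : St Ω} {t : Ω} (h : Cd p s t) : t ∈ s.1 ++ s.2 := by
  rcases h with h | h
  · exact List.mem_append_left _ h.1
  · exact List.mem_append_right _ h.1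

omit [DecidableEq Ω] in
theorem cd_p {s : St Ω} (hw : WF p s) {t : Ω} (h : Cd p s t) : Cd p s (p t) := by
  rcases h with h | h
  · exact Or.inl ⟨h.2, by rw [hw.inv]; exact h.1⟩
  · exact Or.inr ⟨h.2, by rw [hw.inv]; exact h.1⟩

/-- a mu-edge is a defect iff it is occupied by a coloured letter. -/
theorem md_iff {s : St Ω} (hw : WF p s) {t : Ω} : MD p s t ↔ Cd p s (NA.sc s t) := by
  unfold MD Cd NA.Red NA.Blu
  rw [Pool.Agent.helper32.RW.muA hw, Pool.Agent.helper32.RW.muB hw, NA.sc_mem_A hw.nd, NA.sc_mem_B hw.nd]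

/-- the letter of `f` is mixed. -/
theorem f_side {f : Ω} {s : St Ω} (hg : GP p f s) : decide (f ∈ s.1) ≠ decide (p f ∈ s.1) := by
  have h1 : f ∈ s.2 := by
    obtain ⟨Y, hY⟩ := List.getLast?_eq_some_iff.mp hg.last
    rw [hY]; simp
  have h2 : f ∉ s.1 := fun h => (List.nodup_append.mp hg.wf.nd).2.2 _ h _ h1 rfl
  rw [decide_eq_false h2, decide_eq_true hg.fA]
  simp

omit [DecidableEq Ω] in
theorem cd_ne_f {f : Ω} {s : St Ω} (hg : GP p f s) {t : Ω} (h : Cd p s t) : t ≠ f ∧ t ≠ p f := by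
  have h1 : f ∈ s.2 := by
    obtain ⟨Y, hY⟩ := List.getLast?_eq_some_iff.mp hg.last
    rw [hY]; simp
  have hd : ∀ v, v ∈ s.1 → v ∈ s.2 → False := fun v h h' => (List.nodup_append.mp hg.wf.nd).2.2 _ h _ h' rfl
  constructor
  · rintro rfl
    rcases h with h | h
    · exact hd _ h.1 h1
    · exact hd _ hg.fA h.2
  · rintro rfl
    rcases h with h | h
    · have := h.2
      rw [hg.wf.inv] at this
      exact hd _ this h1
    · exact hd _ hg.fA h.1

theorem mu_ne {s : St Ω} (hw : WF p s) (t : Ω) : NA.mu p s t ≠ t := by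
  intro h
  rw [NA.mu_eq_pd] at h
  have h2 := congrArg (NA.sc s) h
  rw [Pool.Agent.helper32.RW.sc_pd] at h2
  exact hw.ne _ h2

end toolbox

/-- the core of the argument. -/
theorem split_core {f : Ω} {s : St Ω} (hg : GP p f s) {u v : Ω} (hc : Cp p s u v) (hf : Fr p s u)
    {R : Ω → Ω → Prop} (hR : Equivalence R) (hRp : ∀ t, R t (p t)) (hRm : ∀ t, R t (NA.mu p s t)) (huv : ¬ R u v)
    {xi : Ω × Bool} {j : ℕ} (hxi : (xi = (u, false) ∧ ¬ R f v) ∨ (xi = (v, true) ∧ ¬ R f u))
    (hD : Df p (NA.mu p s) (fun w => decide (w ∈ s.1)) ((nx p (NA.mu p s))^[j] xi))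
    (hF : ∀ i ≤ j, ((nx p (NA.mu p s))^[i] xi).1 ≠ f ∧ ((nx p (NA.mu p s))^[i] xi).1 ≠ p f)
    (ho1 : ∀ b, (nx p (NA.mu p s))^[j] xi = (b, true) → b ≠ u ∧ b ≠ p u)
    (ho2 : ∀ a, (nx p (NA.mu p s))^[j] xi = (a, false) → a ≠ v ∧ a ≠ NA.mu p s v) :
    ∃ n ≤ j, ∃ s' : St Ω, RTs p (6 * n) s s' ∧ GP p f s' ∧ (s'.1 ++ s'.2).Perm (s.1 ++ s.2) ∧
      NTS.D2 p s' = NTS.D2 p s ∧ NA.mu p s' = NA.mu p s ∧ Adj p s' := by
  have hw := hg.wf
  obtain ⟨n, hn, s', hWR, -, h8⟩ := NP.walk hg hc hf j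
  obtain ⟨h1, h2, h2', h3, h4, h5, -, h6, h7, -⟩ := hWR
  refine ⟨n, hn, s', h1, h2, h2', h3, h4, ?_⟩
  set m := NA.mu p s with hm
  set a := (wk p m n (u, v)).1 with ha
  set b := (wk p m n (u, v)).2 with hb
  have hw' := h2.wf
  -- the classes
  have hu1 := nx_cls (p := p) (m := m) hR hRp hRm n (u, false)
  have hv1 := nx_cls (p := p) (m := m) hR hRp hRm n (v, true)
  have hRpf : ∀ t, R (p f) t → R f t := fun t h => hR.trans (hRp f) h
  have hab : ¬ R a b := by
    intro h
    rcases wk_nx (p := p) (m := m) n u v with hk | hk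
    · rw [hk.1] at hu1
      rw [hk.2] at hv1
      exact huv (hR.trans hu1 (hR.trans h (hR.symm hv1)))
    · rw [hk.1] at hu1
      rw [hk.2] at hv1
      exact huv (hR.trans hu1 (hR.trans (hR.symm h) (hR.symm hv1)))
  have hne : a ≠ b := fun h => hab (h ▸ hR.refl _)
  -- the wall is not reached
  have hbf : b ≠ f ∧ b ≠ p f := by
    rcases hxi with ⟨hxi, hfv⟩ | ⟨hxi, hfu⟩
    · rcases wk_nx (p := p) (m := m) n u v with hk | hk
      · rw [hk.2] at hv1
        constructor
        · intro e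
          exact hfv (by rw [← e]; exact hR.symm hv1)
        · intro e
          exact hfv (hRpf _ (by rw [← e]; exact hR.symm hv1))
      · have := hF n hn
        rw [hxi, hk.1] at this
        exact this
    · rcases wk_nx (p := p) (m := m) n u v with hk | hk
      · have := hF n hn
        rw [hxi, hk.2] at this
        exact this
      · rw [hk.1] at hu1
        constructor
        · intro e
          exact hfu (by rw [← e]; exact hR.symm hu1)
        · intro e
          exact hfu (hRpf _ (by rw [← e]; exact hR.symm hu1))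
  -- the contact
  have hcon : Cd p s' (NA.sc s' a) ∨ Cd p s' b := by
    rcases h8 with rfl | h8
    · -- the end of the path
      have hum : u ∈ s.1 ++ s.2 := cd_mem hc.1
      have hvm : v ∈ s.1 ++ s.2 := by
        rw [← hc.2]
        exact mem_pd hw (hw.cl _ hum)
      have hmem : ∀ (k : ℕ) (x : Ω × Bool), x.1 ∈ s.1 ++ s.2 → ((nx p m)^[k] x).1 ∈ s.1 ++ s.2 := by
        intro k
        induction k with
        | zero => exact fun x hx => hx
        | succ k ih =>
          intro x hx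
          rw [Function.iterate_succ_apply]
          refine ih _ ?_
          obtain ⟨w, q⟩ := x
          cases q with
          | true => exact hw.cl _ hx
          | false => exact mem_mu hw hx
      have hxm : xi.1 ∈ s.1 ++ s.2 := by
        rcases hxi with ⟨h, _⟩ | ⟨h, _⟩ <;> rw [h]
        · exact hum
        · exact hvm
      have hjm := hmem n xi hxm
      have hcase : (nx p m)^[n] xi = (a, false) ∨ (nx p m)^[n] xi = (b, true) := by
        rcases hxi with ⟨h, _⟩ | ⟨h, _⟩ <;> rw [h] <;> rcases wk_nx (p := p) (m := m) n u v with hk | hk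
        · exact Or.inl hk.1
        · exact Or.inr hk.1
        · exact Or.inr hk.2
        · exact Or.inl hk.2
      rcases hcase with hc1 | hc1
      · left
        rw [hc1] at hD hjm
        have h9 : MD p s a := md_of hw hjm hD
        obtain ⟨o1, o2⟩ := ho2 a hc1
        exact (md_iff hw').1 ((h7 a).2 (Or.inl ⟨h9, o1, o2⟩))
      · right
        rw [hc1] at hD hjm
        have h9 : Cd p s b := cd_of hw hjm hD
        obtain ⟨o1, o2⟩ := ho1 b hc1
        exact (h6 b).2 (Or.inl ⟨h9, o1, o2⟩)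
    · rcases h8 with h8 | h8 | h8 | h8
      · exact Or.inl h8
      · exact Or.inr h8
      · exact absurd h8 hbf.1
      · exact absurd h8 hbf.2
  have h5b : NA.sc s' b = p a := by rw [← h5.2, Pool.Agent.helper32.RW.sc_pd]
  rcases hcon with hcon | hcon
  · refine ⟨a, h5.1, hcon, fun h => ?_⟩
    have e1 : NA.pd s' (p a) = a := NA.pd_of_sc h
    rw [h5.2] at e1
    exact hne e1.symm
  · refine ⟨b, hcon, ?_, fun h => ?_⟩
    · rw [h5b]
      exact cd_p hw' h5.1
    · rw [h5b] at h
      apply hne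
      rw [← hw.inv a, h, hw.inv]

/-- **(W)**: a letter with its two defects on different cycles reaches a contact. -/
theorem contact_split {f : Ω} {s : St Ω} (hg : GP p f s) {c : Ω} (hc : Cd p s c) (hf : Fr p s c)
    {R : Ω → Ω → Prop} (hR : Equivalence R) (hRp : ∀ t, R t (p t)) (hRm : ∀ t, R t (NA.mu p s t))
    (hne : ¬ R c (NA.pd s c)) :
    ∃ n ≤ 2 * (s.1 ++ s.2).length, ∃ s' : St Ω, RTs p (6 * n) s s' ∧ GP p f s' ∧ (s'.1 ++ s'.2).Perm (s.1 ++ s.2) ∧
      NTS.D2 p s' = NTS.D2 p s ∧ NA.mu p s' = NA.mu p s ∧ Adj p s' := by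
  have hw := hg.wf
  set m := NA.mu p s with hm
  have hp := hw.inv
  have hp0 := hw.ne
  have hmm : ∀ t, m (m t) = t := Pool.Agent.helper32.RW.mu_mu' hw
  have hm0 : ∀ t, m t ≠ t := mu_ne hw
  -- the finite set of the tokens
  set T := (s.1 ++ s.2).toFinset with hT
  have hpT : ∀ t ∈ T, p t ∈ T := fun t ht => by
    rw [hT, List.mem_toFinset] at ht ⊢
    exact hw.cl _ ht
  have hmT : ∀ t ∈ T, m t ∈ T := fun t ht => by
    rw [hT, List.mem_toFinset] at ht ⊢
    exact mem_mu hw ht
  have hTc : T.card = (s.1 ++ s.2).length := List.toFinset_card_of_nodup hw.nd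
  have hcm := cd_mem hc
  have hpcm := hw.cl _ hcm
  set e := NA.pd s c with he
  have hem : e ∈ s.1 ++ s.2 := mem_pd hw hcm
  have hme : m e = NA.pd s (p c) := NA.mu_pd s c
  have hcf := cd_ne_f hg hc
  have hpcf := cd_ne_f hg (cd_p hw hc)
  have hfs := f_side hg
  have hfpc : Fr p s (p c) := by
    obtain ⟨⟨d, d1, d2, d3⟩, ⟨d', d4, d5, d6⟩⟩ := hf
    exact ⟨⟨d, d1, d3, by rw [hp]; exact d2⟩, ⟨d', d4, d6, by rw [hp]; exact d5⟩⟩
  have hC1 : Cp p s c (m e) := ⟨hc, hme.symm⟩
  have hC2 : Cp p s (p c) e := ⟨cd_p hw hc, by rw [hp]⟩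
  have hnR1 : ¬ R c (m e) := fun h => hne (hR.trans h (hR.symm (hRm e)))
  have hnR2 : ¬ R (p c) e := fun h => hne (hR.trans (hRp c) h)
  by_cases hfc : R f c
  · -- the wall is on the cycle of the p-defect
    have hfe : ¬ R f e := fun h => hne (hR.trans (hR.symm hfc) h)
    have hfme : ¬ R f (m e) := fun h => hfe (hR.trans h (hR.symm (hRm e)))
    have hDg : Df p m (fun w => decide (w ∈ s.1)) (p c, true) := by
      unfold Df
      rw [nx_true, hp]
      rcases hc with h | h
      · simp only [h.1, h.2]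
      · have h1 : c ∉ s.1 := fun h' => Pool.Agent.helper32.RW.dj hw h' h.1
        have h2 : p c ∉ s.1 := fun h' => Pool.Agent.helper32.RW.dj hw h' h.2
        simp only [h1, h2]
    obtain ⟨L, hL, hLT, hper⟩ := period hp hmm T hpT hmT (a := (p c, true)) (by rw [hT, List.mem_toFinset]; exact hpcm)
    obtain ⟨xi, hxi, j, hj, d1, d2, d3, d4, d5⟩ := dir hp hmm hp0 hm0 hL hper hDg hfs (by
      rw [nx_true, hp]
      exact fun _ => hcf) (by
      rw [rv_mk]
      exact fun _ => hpcf)
    rw [nx_true, hp, rv_mk] at hxi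
    rw [nx_true, hp, rv_mk] at d5
    simp only [Bool.not_true, Bool.not_false] at hxi d5
    rcases hxi with rfl | rfl
    · obtain ⟨n, hn, s', r⟩ := split_core hg hC1 hf hR hRp hRm hnR1 (xi := (c, false)) (j := j) (Or.inl ⟨rfl, hfme⟩) d1 d3
        (fun b hb => ⟨fun h => d5 (by rw [hb, h]), fun h => d4 (by rw [hb, h])⟩)
        (fun a ha => by
          have := nx_cls (p := p) (m := m) hR hRp hRm j (c, false)
          rw [ha] at this
          refine ⟨fun h => hnR1 (by rw [← h]; exact this), fun h => ?_⟩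
          have h2 : R c e := by
            have h3 : a = m (m e) := h
            rw [← hmm e, ← h3]; exact this
          exact hne h2)
      exact ⟨n, by omega, s', r⟩
    · obtain ⟨n, hn, s', r⟩ := split_core hg hC2 hfpc hR hRp hRm hnR2 (xi := (p c, false)) (j := j) (Or.inl ⟨rfl, hfe⟩) d1 d3
        (fun b hb => ⟨fun h => d4 (by rw [hb, h]), fun h => d5 (by rw [hb, h, hp])⟩)
        (fun a ha => by
          have := nx_cls (p := p) (m := m) hR hRp hRm j (p c, false)
          rw [ha] at this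
          refine ⟨fun h => hnR2 (by rw [← h]; exact this), fun h => ?_⟩
          exact hnR2 (hR.trans this (by rw [h]; exact hR.symm (hRm e))))
      exact ⟨n, by omega, s', r⟩
  · -- the wall is not on the cycle of the p-defect
    have hfpc' : ¬ R f (p c) := fun h => hfc (hR.trans h (hR.symm (hRp c)))
    have hMe : MD p s e := (md_iff hw).2 (by rw [he, Pool.Agent.helper32.RW.sc_pd]; exact hc)
    have hDg : Df p m (fun w => decide (w ∈ s.1)) (e, false) := by
      unfold Df
      rw [nx_false]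
      rcases hMe with h | h
      · simp only [h.1, h.2, hm]
      · have h1 : e ∉ s.1 := fun h' => Pool.Agent.helper32.RW.dj hw h' h.1
        have h2 : m e ∉ s.1 := fun h' => Pool.Agent.helper32.RW.dj hw h' h.2
        simp only [h1, h2]
    obtain ⟨L, hL, hLT, hper⟩ := period hp hmm T hpT hmT (a := (e, false)) (by rw [hT, List.mem_toFinset]; exact hem)
    obtain ⟨xi, hxi, j, hj, d1, d2, d3, d4, d5⟩ := dir hp hmm hp0 hm0 hL hper hDg hfs (by
      rw [nx_false]
      exact fun h => absurd h (by simp)) (by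
      rw [rv_mk]
      exact fun h => absurd h (by simp))
    rw [nx_false, rv_mk] at hxi
    rw [nx_false, rv_mk] at d5
    simp only [Bool.not_true, Bool.not_false] at hxi d5
    rcases hxi with rfl | rfl
    · obtain ⟨n, hn, s', r⟩ := split_core hg hC1 hf hR hRp hRm hnR1 (xi := (m e, true)) (j := j) (Or.inr ⟨rfl, hfc⟩) d1 d3
        (fun b hb => by
          have := nx_cls (p := p) (m := m) hR hRp hRm j (m e, true)
          rw [hb] at this
          refine ⟨fun h => hnR1 (by rw [← h]; exact hR.symm this), fun h => ?_⟩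
          exact hnR1 (hR.trans (hRp c) (by rw [← h]; exact hR.symm this)))
        (fun a ha => ⟨fun h => d5 (by rw [ha, h]), fun h => d4 (by rw [ha, h, ← hm, hmm])⟩)
      exact ⟨n, by omega, s', r⟩
    · obtain ⟨n, hn, s', r⟩ := split_core hg hC2 hfpc hR hRp hRm hnR2 (xi := (e, true)) (j := j) (Or.inr ⟨rfl, hfpc'⟩) d1 d3
        (fun b hb => by
          have := nx_cls (p := p) (m := m) hR hRp hRm j (e, true)
          rw [hb] at this
          refine ⟨fun h => hnR2 (by rw [← h]; exact hR.symm this), fun h => ?_⟩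
          rw [hp] at h
          exact hne (by rw [← h]; exact hR.symm this))
        (fun a ha => ⟨fun h => d4 (by rw [ha, h]), fun h => d5 (by rw [ha, h])⟩)
      exact ⟨n, by omega, s', r⟩

end Pool.Agent.helper36.T1
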