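import Pool.Agent.helper65.D3.Self
import Pool.Agent.helper3.NP.Hit

/-!
# MP_c8d30a, exponent 12, Part I: two letters of one colour which are both stuck
-/

set_option autoImplicit false
set_option linter.unusedSectionVars false

namespace Pool.Agent.helper36.T1

open NTH NP D3 Equiv NTS
open Pool.Agent.helper32.RH (RTs)

section pattern

/-- the code of a token. -/
def e4 (i : Fin 4) : Fin 6 := ⟨i.1, by omega⟩

/-- the stuck patterns (the value at `i` is the code of the predecessor of the token `i`; `4` = wall, `5` = other). -/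
def baseB (x : Fin 4 → Fin 6) (i0 i1 i2 i3 : Fin 4) : Bool :=
  (decide (x i1 = e4 i0) && decide (x i2 = e4 i1) && decide (x i3 = e4 i2)) ||
  (decide (x i2 = e4 i0) && decide (x i3 = e4 i2) && decide (x i1 = e4 i3)) ||
  (decide (x i2 = e4 i0) && decide (x i1 = e4 i2) && decide (x i3 = e4 i1) && decide (x i0 = 4)) ||
  (decide (x i2 = e4 i0) && decide (x i1 = e4 i2) && decide (x i3 = e4 i1) && decide (x i0 = 5)) ||
  (decide (x i1 = e4 i0) && decide (x i3 = e4 i1) && decide (x i2 = 4)) ||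
  (decide (x i0 = 4) && decide (x i3 = e4 i0) && decide (x i1 = e4 i3)) ||
  (decide (x i3 = 4) && decide (x i0 = e4 i3) && decide (x i1 = e4 i0)) ||
  (decide (x i2 = e4 i0) && decide (x i3 = e4 i1) && decide (x i0 = 4) && decide (x i1 = 5)) ||
  (decide (x i2 = e4 i0) && decide (x i3 = e4 i1) && decide (x i0 = 5) && decide (x i1 = 5))

/-- the arrangements. -/
def arrL : List (Fin 4 × Fin 4 × Fin 4 × Fin 4) :=
  [(0, 1, 2, 3), (1, 0, 2, 3), (0, 1, 3, 2), (1, 0, 3, 2), (2, 3, 0, 1), (2, 3, 1, 0), (3, 2, 0, 1), (3, 2, 1, 0)]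

/-- sets of tokens which cannot be closed. -/
def subs : List (List (Fin 4)) :=
  [[0, 1], [0, 2], [0, 3], [1, 2], [1, 3], [2, 3], [0, 1, 2], [0, 1, 3], [0, 2, 3], [1, 2, 3], [0, 1, 2, 3]]

theorem subs_ne : ∀ S ∈ subs, ∃ i, i ∈ S := by decide

/-- the hypotheses. -/
def okB (x : Fin 4 → Fin 6) : Bool :=
  ([0, 1, 2, 3] : List (Fin 4)).all (fun i => !decide (x i = e4 i)) &&
  (([(0, 1), (0, 2), (0, 3), (1, 2), (1, 3), (2, 3)] : List (Fin 4 × Fin 4)).all
    (fun q => !(decide (x q.1 = x q.2) && !decide (x q.1 = 5)))) &&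
  (subs.all (fun S => !(S.all (fun i => S.any (fun j => decide (x i = e4 j)))))) &&
  (([(0, 1), (1, 0), (2, 3), (3, 2)] : List (Fin 4 × Fin 4)).all
    (fun q => (([0, 1, 2, 3] : List (Fin 4)).any (fun j => decide (x j = e4 q.1))) || !decide (x q.2 = 5)))

theorem pat : ∀ x0 x1 x2 x3 : Fin 6, okB ![x0, x1, x2, x3] = true →
    arrL.any (fun q => baseB ![x0, x1, x2, x3] q.1 q.2.1 q.2.2.1 q.2.2.2) = true := by
  decide +kernel

end pattern

section sem

universe u

theorem reach_w {α : Type u} [DecidableEq α] {l : List α} (hn : l.Nodup) {pd : α → α}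
    (hpd : ∀ t ∈ l, pd t ∈ l ∧ l.formPerm (pd t) = t) {S : α → Prop} (hcl : ∀ t, S t → S (pd t)) {t0 w : α} (h0 : t0 ∈ l)
    (hS : S t0) (hw : w ∈ l) : S w := by
  have hc := (List.Nodup.isCycleOn_formPerm hn).inv
  have hfin : {a | a ∈ l}.Finite := by
    have : {a | a ∈ l} = ↑l.toFinset := by ext; simp
    rw [this]; exact Finset.finite_toSet _
  obtain ⟨n, hnw⟩ := Equiv.Perm.IsCycleOn.exists_pow_eq' hfin hc (a := t0) (b := w) h0 hw
  have key : ∀ n : ℕ, ((l.formPerm)⁻¹ ^ n) t0 ∈ l ∧ S (((l.formPerm)⁻¹ ^ n) t0) := by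
    intro n
    induction n with
    | zero => exact ⟨h0, hS⟩
    | succ n ih =>
      rw [pow_succ', Perm.mul_apply]
      have h1 : (l.formPerm)⁻¹ (((l.formPerm)⁻¹ ^ n) t0) = pd (((l.formPerm)⁻¹ ^ n) t0) := by
        rw [Perm.inv_eq_iff_eq]
        exact (hpd _ ih.1).2.symm
      rw [h1]
      exact ⟨(hpd _ ih.1).1, hcl _ ih.2⟩
  rw [← hnw]
  exact (key n).2

variable {Ω : Type} [DecidableEq Ω] {p r : Ω → Ω} {s s' : St Ω} {f : Ω} {a b c d g h : Ω}

/-- no set of coloured tokens is closed under the predecessor. -/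
theorem no_closed (hg : GP p f s) {S : Ω → Prop} (hS : ∀ t, S t → Cd p s t) (hcl : ∀ t, S t → S (NA.pd s t)) {t0 : Ω}
    (h0 : S t0) : False := by
  have hw := hg.wf
  have hfB : f ∈ s.2 := List.mem_of_getLast? hg.last
  rcases (hS t0 h0).mem with hm | hm
  · have h1 := reach_w (l := s.1) (List.nodup_append.1 hw.nd).1 (pd := NA.pd s) (fun t ht => ?_) hcl hm h0 hg.fA
    · exact (hS _ h1).nf' hg rfl
    · have h2 := (NA.pd_mem_A hw.nd).2 ht
      exact ⟨h2, by rw [← NA.sc_A hw.nd h2, NA.sc_pd]⟩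
  · have h1 := reach_w (l := s.2) (List.nodup_append.1 hw.nd).2.1 (pd := NA.pd s) (fun t ht => ?_) hcl hm h0 hfB
    · exact (hS _ h1).nf hg rfl
    · have h2 := (NA.pd_mem_B hw.nd).2 ht
      exact ⟨h2, by rw [← NA.sc_B hw.nd h2, NA.sc_pd]⟩

/-- the wall. -/
def Wl (p : Ω → Ω) (f v : Ω) : Prop := v = f ∨ v = p f

/-- a mixed token, not the wall. -/
def Ot (p : Ω → Ω) (f : Ω) (s : St Ω) (v : Ω) : Prop := ¬ Cd p s v ∧ v ≠ f ∧ v ≠ p f

theorem Wl.wr (hp : ∀ t, p (p t) = t) {q : Ω → Ω} {v : Ω} (h : Wl p f v) {K : ℕ} (hK : 1 ≤ K) (l : List Ω) :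
    v ∈ Wr p q r K (p f :: l) := by
  refine Wr_up hK ?_
  rcases h with rfl | rfl
  · have := Wr_p (p := p) (q := q) (r := r) (K := 0) (l := p v :: l) (Wr_base (List.mem_cons_self))
    rwa [hp] at this
  · exact Wr_base List.mem_cons_self

/-- the case of a drop. -/
theorem drop_case (T : Tri p f s a b c d g h) (hsc : NA.pd s c = a) (hb : Ot p f s b) {y : Ω} {K : ℕ}
    (h1 : c ∈ Wr p (NA.mu p s) r K [p f, y]) (h2 : b ∈ Wr p (NA.mu p s) r K [p f, y]) : Goal p r f s (K + 1) 6 := by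
  have hw := T.wf
  have hsc' : NA.sc s a = c := by rw [← hsc, NA.sc_pd]
  obtain ⟨s', k1, k2, -, -, -⟩ := xhit T.gp T.c1 (by rw [hsc']; exact T.c2.1) hb.1 hb.2.1 hb.2.2
  have hmd : NA.mu p s d = a := by
    have := (T.c2.flip hw).2
    rw [hw.inv] at this
    rw [← this, hsc]
  have hmd' : NA.mu p s a = d := by rw [← hmd, NA.mu_mu hw.inv]
  have hac := T.ac
  have hag := T.ag
  have hbd := T.bd
  have hhd := T.sw12.sw23.bd
  have D : Duo p f s' c b g h := by
    refine ⟨k2.gp, by have := k2.d2; have := T.d2; omega, fun z => ?_, fun z => ?_⟩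
    · rw [k2.cd, T.cd]
      constructor
      · rintro ⟨h3 | h3 | h3 | h3 | h3 | h3, h4, h5⟩
        · exact absurd h3 h4
        · exact absurd h3 h5
        · exact Or.inl h3
        · exact Or.inr (Or.inl h3)
        · exact Or.inr (Or.inr (Or.inl h3))
        · exact Or.inr (Or.inr (Or.inr h3))
      · rintro (rfl | rfl | rfl | rfl)
        · exact ⟨Or.inr (Or.inr (Or.inl rfl)), hac.1, hac.2.1⟩
        · exact ⟨Or.inr (Or.inr (Or.inr (Or.inl rfl))), hac.2.2.1, hac.2.2.2⟩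
        · exact ⟨Or.inr (Or.inr (Or.inr (Or.inr (Or.inl rfl)))), hag.1, hag.2.1⟩
        · exact ⟨Or.inr (Or.inr (Or.inr (Or.inr (Or.inr rfl)))), hag.2.2.1, hag.2.2.2⟩
    · rw [k2.md, T.md, k2.mu, hmd', ← hmd]
      constructor
      · rintro ⟨h3 | h3 | h3 | h3 | h3 | h3, h4, h5⟩
        · exact Or.inl h3
        · exact Or.inr (Or.inl h3)
        · exact absurd h3 h5
        · exact absurd h3 h4
        · exact Or.inr (Or.inr (Or.inl h3))
        · exact Or.inr (Or.inr (Or.inr h3))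
      · rintro (rfl | rfl | rfl | rfl)
        · exact ⟨Or.inl rfl, hbd.2.2.1.symm, hbd.1.symm⟩
        · exact ⟨Or.inr (Or.inl rfl), hbd.2.2.2.symm, hbd.2.1.symm⟩
        · exact ⟨Or.inr (Or.inr (Or.inr (Or.inr (Or.inl rfl)))), hhd.2.1, hhd.1⟩
        · exact ⟨Or.inr (Or.inr (Or.inr (Or.inr (Or.inr rfl)))), hhd.2.2.2, hhd.2.2.1⟩
  refine ⟨s', k1, k2.gp, by have := D.d2; omega, low_duo D (l := [y, g, h]) (by simp) ?_⟩
  intro x hx
  rw [k2.mu]
  have up : ∀ v, v ∈ Wr p (NA.mu p s) r K [p f, y] → v ∈ Wr p (NA.mu p s) r K [p f, y, g, h] := fun v hv =>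
    Wr_mono (le_refl _) (fun z hz => by
      simp only [List.mem_cons, List.not_mem_nil, or_false] at hz ⊢
      rcases hz with hz | hz
      · exact Or.inl hz
      · exact Or.inr (Or.inl hz)) hv
  simp only [List.mem_cons, List.not_mem_nil, or_false] at hx
  rcases hx with rfl | rfl | rfl | rfl
  · exact up _ h1
  · exact up _ h2
  · exact Wr_base (by simp)
  · exact Wr_base (by simp)

/-- the closed set is avoided. -/
theorem Wr_avoid {q : Ω → Ω} {S : Ω → Prop} (h1 : ∀ z, S z → S (p z)) (h2 : ∀ z, S z → S (q z)) (h3 : ∀ z, S z → S (r z))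
    {l l' : List Ω} (hl : ∀ y ∈ l, ¬ S y → y ∈ l') : ∀ (K : ℕ) (x : Ω), x ∈ Wr p q r K l → ¬ S x → x ∈ Wr p q r K l' := by
  intro K
  induction K with
  | zero => exact fun x hx hS => hl x hx hS
  | succ K ih =>
    intro x hx hS
    rw [mem_Wr_succ] at hx ⊢
    rcases hx with hx | ⟨y, hy, hxy⟩
    · exact Or.inl (ih x hx hS)
    · refine Or.inr ⟨y, ih y hy (fun hSy => hS ?_), hxy⟩
      rcases hxy with rfl | rfl | rfl
      · exact h1 _ hSy
      · exact h2 _ hSy
      · exact h3 _ hSy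

theorem Wr_in {q : Ω → Ω} {S : Ω → Prop} (h1 : ∀ z, S (p z) → S z) (h2 : ∀ z, S (q z) → S z) (h3 : ∀ z, S (r z) → S z)
    {l : List Ω} : ∀ (K : ℕ) (x : Ω), x ∈ Wr p q r K l → S x → ∃ y ∈ l, S y := by
  intro K
  induction K with
  | zero => exact fun x hx hS => ⟨x, hx, hS⟩
  | succ K ih =>
    intro x hx hS
    rw [mem_Wr_succ] at hx
    rcases hx with hx | ⟨y, hy, hxy⟩
    · exact ih x hx hS
    · refine ih y hy ?_
      rcases hxy with rfl | rfl | rfl
      · exact h1 _ hS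
      · exact h2 _ hS
      · exact h3 _ hS

/-- a set which is closed under `p` and `q` is closed under the canonical map, both ways. -/
theorem Can.cl {q : Ω → Ω} (hC : Can p q r) {S : Ω → Prop} (h1 : ∀ z, S (p z) ↔ S z) (h2 : ∀ z, S (q z) ↔ S z) (z : Ω) :
    S (r z) ↔ S z := by
  have key : ∀ w, Relation.ReflTransGen (fun a b => b = p a ∨ b = q a) z w → (S w ↔ S z) := by
    intro w h
    induction h with
    | refl => exact Iff.rfl
    | tail _ h ih =>
      rcases h with rfl | rfl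
      · rw [h1]; exact ih
      · rw [h2]; exact ih
  exact key _ (hC.conn z)

/-- the stuck situations. -/
def BaseP (p : Ω → Ω) (f : Ω) (s : St Ω) (a a' c c' : Ω) : Prop :=
  (NA.pd s a' = a ∧ NA.pd s c = a' ∧ NA.pd s c' = c) ∨
  (NA.pd s c = a ∧ NA.pd s c' = c ∧ NA.pd s a' = c') ∨
  (NA.pd s c = a ∧ NA.pd s a' = c ∧ NA.pd s c' = a' ∧ Wl p f (NA.pd s a)) ∨
  (NA.pd s c = a ∧ NA.pd s a' = c ∧ NA.pd s c' = a' ∧ Ot p f s (NA.pd s a)) ∨
  (NA.pd s a' = a ∧ NA.pd s c' = a' ∧ Wl p f (NA.pd s c)) ∨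
  (Wl p f (NA.pd s a) ∧ NA.pd s c' = a ∧ NA.pd s a' = c') ∨
  (Wl p f (NA.pd s c') ∧ NA.pd s a = c' ∧ NA.pd s a' = a) ∨
  (NA.pd s c = a ∧ NA.pd s c' = a' ∧ Wl p f (NA.pd s a) ∧ Ot p f s (NA.pd s a')) ∨
  (NA.pd s c = a ∧ NA.pd s c' = a' ∧ Ot p f s (NA.pd s a) ∧ Ot p f s (NA.pd s a'))

/-- the symmetric cover. -/
def Cov8 (p r : Ω → Ω) (s : St Ω) (f : Ω) (K : ℕ) (a b c d : Ω) : Prop :=
  ∃ x y, ∀ z, (z = a ∨ z = p a ∨ z = b ∨ z = NA.mu p s b ∨ z = c ∨ z = p c ∨ z = d ∨ z = NA.mu p s d) →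
    z ∈ Wr p (NA.mu p s) r K [p f, x, y]

theorem base_case (T : Tri p f s a b c d g h) (hC : Can p (NA.mu p s) r) {K : ℕ} (hcov : Cov8 p r s f K a b c d)
    (hb : BaseP p f s a (p a) c (p c)) : Goal p r f s (K + 10) 6 := by
  have hw := T.wf
  have hp := hw.inv
  have hmm := NA.mu_mu hp s
  have e1 : NA.pd s (p a) = b := T.c1.2
  have e2 : NA.pd s (p c) = d := T.c2.2
  have e3 : NA.pd s a = NA.mu p s b := by
    have := (T.c1.flip hw).2
    rwa [hp] at this
  have e4' : NA.pd s c = NA.mu p s d := by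
    have := (T.c2.flip hw).2
    rwa [hp] at this
  unfold BaseP at hb
  rw [e1, e2, e3, e4'] at hb
  set q := NA.mu p s with hq
  -- the end without a move
  have low : ∀ y : Ω, a ∈ Wr p q r 9 [p f, y] → b ∈ Wr p q r 9 [p f, y] → c ∈ Wr p q r 9 [p f, y] → d ∈ Wr p q r 9 [p f, y] →
      Goal p r f s (K + 10) 6 := by
    intro y k1 k2 k3 k4
    have up : ∀ v, v ∈ Wr p q r 9 [p f, y] → v ∈ Wr p q r 9 [p f, y, g, h] := fun v hv =>
      Wr_mono (le_refl _) (fun z hz => by
        simp only [List.mem_cons, List.not_mem_nil, or_false] at hz ⊢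
        rcases hz with hz | hz
        · exact Or.inl hz
        · exact Or.inr (Or.inl hz)) hv
    have h1 := low_tri T (l := [y, g, h]) (r := r) (K := 9) (by simp) (by
      intro x hx
      simp only [List.mem_cons, List.not_mem_nil, or_false] at hx
      rcases hx with rfl | rfl | rfl | rfl | rfl | rfl
      · exact up _ k1
      · exact up _ k2
      · exact up _ k3
      · exact up _ k4
      · exact Wr_base (by simp)
      · exact Wr_base (by simp))
    exact (Goal.here T.gp (by rw [T.d2]) h1).mono (by omega) (by omega)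
  have base : ∀ y : Ω, y ∈ Wr p q r 0 [p f, y] := fun y => Wr_base (by simp)
  have upK : ∀ {K K' : ℕ} {v : Ω} {l : List Ω}, K ≤ K' → v ∈ Wr p q r K l → v ∈ Wr p q r K' l := fun hK hv => Wr_up hK hv
  rcases hb with ⟨b1, b2, b3⟩ | ⟨b1, b2, b3⟩ | ⟨b1, b2, b3, b4⟩ | ⟨b1, b2, b3, b4⟩ | ⟨b1, b2, b3⟩ | ⟨b1, b2, b3⟩ |
    ⟨b1, b2, b3⟩ | ⟨b1, b2, b3, b4⟩ | ⟨b1, b2, b3, b4⟩
  · -- a a' c c'
    have hd : d = q (p a) := by rw [← b2, hmm]
    have k1 : d ∈ Wr p q r 2 [p f, a] := by rw [hd]; exact Wr_q (Wr_p (base a))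
    refine low a (upK (by omega) (base a)) ?_ ?_ (upK (by omega) k1)
    · rw [b1]; exact upK (by omega) (base a)
    · rw [← b3]; exact upK (by omega) k1
  · -- a c c' a'
    have hd : d = q a := by rw [← b1, hmm]
    have k1 : d ∈ Wr p q r 1 [p f, a] := by rw [hd]; exact Wr_q (base a)
    have k2 : c ∈ Wr p q r 1 [p f, a] := by rw [← b2]; exact k1
    refine low a (upK (by omega) (base a)) ?_ (upK (by omega) k2) (upK (by omega) k1)
    rw [b3]; exact upK (by omega) (Wr_p k2)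
  · -- W a c a' c'
    have hd : d = q a := by rw [← b1, hmm]
    have k1 : d ∈ Wr p q r 1 [p f, a] := by rw [hd]; exact Wr_q (base a)
    have k0 := b4.wr (r := r) (q := q) hp (le_refl 1) [a]
    have k2 : b ∈ Wr p q r 2 [p f, a] := by
      have := Wr_q k0
      rwa [hmm] at this
    refine low a (upK (by omega) (base a)) (upK (by omega) k2) ?_ (upK (by omega) k1)
    rw [← b2]; exact upK (by omega) k2
  · -- a c a' c'
    have T' := T.fl1.fl2
    refine (drop_case (r := r) (y := c) (K := 1) T' ?_ ?_ ?_ ?_).mono (by omega) (le_refl _)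
    · rw [e2, b3]
    · exact b4
    · exact Wr_p (base c)
    · show q b ∈ _
      rw [b2]; exact Wr_q (base c)
  · -- a a' c' | W c
    have k0 := b3.wr (r := r) (q := q) hp (le_refl 1) [c]
    have k1 : d ∈ Wr p q r 2 [p f, c] := by
      have := Wr_q k0
      rwa [hmm] at this
    have k2 : a ∈ Wr p q r 3 [p f, c] := by
      have := Wr_p k1
      rwa [b2, hp] at this
    refine low c (upK (by omega) k2) ?_ (upK (by omega) (base c)) (upK (by omega) k1)
    rw [b1]; exact upK (by omega) k2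
  · -- W a c' a' | c
    have k0 := b1.wr (r := r) (q := q) hp (le_refl 1) [a]
    have k1 : b ∈ Wr p q r 2 [p f, a] := by
      have := Wr_q k0
      rwa [hmm] at this
    have k2 : c ∈ Wr p q r 3 [p f, a] := by
      have := Wr_p k1
      rwa [b3, hp] at this
    refine low a (upK (by omega) (base a)) (upK (by omega) k1) (upK (by omega) k2) ?_
    rw [b2]; exact upK (by omega) (base a)
  · -- W c' a a' | c
    have k0 := b1.wr (r := r) (q := q) hp (le_refl 1) [a]
    have k2 : c ∈ Wr p q r 2 [p f, a] := by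
      have h5 := Wr_p (Wr_q (base a) : q a ∈ Wr p q r 1 [p f, a])
      have e : p (q a) = c := by rw [← b3, b2, hp]
      rwa [e] at h5
    refine low a (upK (by omega) (base a)) ?_ (upK (by omega) k2) (upK (by omega) k0)
    rw [b3]; exact upK (by omega) (base a)
  · -- W a c | a' c'
    have k0 := b3.wr (r := r) (q := q) hp (le_refl 1) [c]
    refine (drop_case (r := r) (y := c) (K := 2) T ?_ b4 ?_ ?_).mono (by omega) (le_refl _)
    · rw [e4', b1]
    · exact upK (by omega) (base c)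
    · have := Wr_q k0
      rwa [hmm] at this
  · -- a c | a' c'
    obtain ⟨x, y, hxy⟩ := hcov
    have hqa : q a = p a := by
      rw [← b2, ← e2, hq, NA.mu_eq_pd]
      have : NA.sc s a = c := by rw [← b1, ← e4', NA.sc_pd]
      rw [this]
    have hqpa : q (p a) = a := by rw [← hqa, hmm]
    obtain ⟨S, hSd⟩ : ∃ S : Ω → Prop, S = fun v => v = a ∨ v = p a := ⟨_, rfl⟩
    have S1 : ∀ z, S z → S (p z) := by
      rw [hSd]
      rintro z (rfl | rfl)
      · exact Or.inr rfl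
      · exact Or.inl (hp _)
    have S1' : ∀ z, S (p z) ↔ S z := fun z => ⟨fun h => by have := S1 _ h; rwa [hp] at this, S1 z⟩
    have S2 : ∀ z, S z → S (q z) := by
      rw [hSd]
      rintro z (rfl | rfl)
      · exact Or.inr hqa
      · exact Or.inl hqpa
    have S2' : ∀ z, S (q z) ↔ S z := fun z => ⟨fun h => by have := S2 _ h; rwa [hmm] at this, S2 z⟩
    have S3' := Can.cl hC S1' S2'
    have hac := T.ac
    have cS : ¬ S c := by
      rw [hSd]
      rintro (h5 | h5)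
      · exact hac.1 h5
      · exact hac.2.1 h5
    have bS : ¬ S b := by
      rw [hSd]
      rintro (h5 | h5)
      · exact b4.1 (h5 ▸ T.c1.1)
      · exact b4.1 (h5 ▸ T.c1.1.pr hw)
    have fS : ¬ S (p f) := by
      rw [hSd]
      rintro (h5 | h5)
      · exact T.c1.1.nf' T.gp h5.symm
      · exact (T.c1.1.pr hw).nf' T.gp h5.symm
    have hin := Wr_in (S := S) (fun z => (S1' z).1) (fun z => (S2' z).1) (fun z => (S3' z).1) K a (hxy a (Or.inl rfl))
      (by rw [hSd]; exact Or.inl rfl)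
    obtain ⟨w, hwl, hwS⟩ := hin
    have fin : ∀ y' : Ω, (∀ v ∈ [p f, x, y], ¬ S v → v ∈ [p f, y']) → Goal p r f s (K + 10) 6 := by
      intro y' hl
      have k1 := Wr_avoid S1 S2 (fun z => (S3' z).2) hl K c (hxy c (Or.inr (Or.inr (Or.inr (Or.inr (Or.inl rfl)))))) cS
      have k2 := Wr_avoid S1 S2 (fun z => (S3' z).2) hl K b (hxy b (Or.inr (Or.inr (Or.inl rfl)))) bS
      exact (drop_case (r := r) T (by rw [e4', b1]) b4 k1 k2).mono (by omega) (le_refl _)
    simp only [List.mem_cons, List.not_mem_nil, or_false] at hwl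
    rcases hwl with rfl | rfl | rfl
    · exact absurd hwS fS
    · refine fin y (fun v hv hv' => ?_)
      simp only [List.mem_cons, List.not_mem_nil, or_false] at hv ⊢
      rcases hv with rfl | rfl | rfl
      · exact Or.inl rfl
      · exact absurd hwS hv'
      · exact Or.inr rfl
    · refine fin x (fun v hv hv' => ?_)
      simp only [List.mem_cons, List.not_mem_nil, or_false] at hv ⊢
      rcases hv with rfl | rfl | rfl
      · exact Or.inl rfl
      · exact Or.inr rfl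
      · exact absurd hwS hv'

/-- the tokens. -/
def tk (p : Ω → Ω) (a c : Ω) : Fin 4 → Ω := ![a, p a, c, p c]

/-- the code of a token. -/
def cls (p : Ω → Ω) (f a c v : Ω) : Fin 6 :=
  if v = a then 0 else if v = p a then 1 else if v = c then 2 else if v = p c then 3 else if v = f ∨ v = p f then 4 else 5

theorem cls_e4 {v : Ω} {j : Fin 4} (h : cls p f a c v = e4 j) : v = tk p a c j := by
  unfold cls at h
  fin_cases j <;> simp only [e4, tk] at h ⊢ <;> split_ifs at h <;> simp_all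

theorem cls_4 {v : Ω} (h : cls p f a c v = 4) : Wl p f v := by
  unfold cls at h
  split_ifs at h <;> simp_all [Wl]

theorem cls_5 {v : Ω} (h : cls p f a c v = 5) : v ≠ a ∧ v ≠ p a ∧ v ≠ c ∧ v ≠ p c ∧ v ≠ f ∧ v ≠ p f := by
  unfold cls at h
  split_ifs at h <;> simp_all

theorem tk_cls (hw : WF p s) (h1 : c ≠ a) (h2 : c ≠ p a) (h3 : p c ≠ a) (h4 : p c ≠ p a) (j : Fin 4) :
    cls p f a c (tk p a c j) = e4 j := by
  have n1 := hw.ne a
  have n2 := hw.ne c
  fin_cases j <;> simp [cls, tk, e4, *]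

/-- from the codes to the situations. -/
theorem baseP_of {x : Fin 4 → Fin 6} {t : Fin 4 → Ω} (he : ∀ i j, x i = e4 j → NA.pd s (t i) = t j)
    (hw4 : ∀ i, x i = 4 → Wl p f (NA.pd s (t i))) (h5 : ∀ i, x i = 5 → Ot p f s (NA.pd s (t i))) {i0 i1 i2 i3 : Fin 4}
    (h : baseB x i0 i1 i2 i3 = true) : BaseP p f s (t i0) (t i1) (t i2) (t i3) := by
  unfold baseB at h
  simp only [Bool.or_eq_true, Bool.and_eq_true, decide_eq_true_eq] at h
  unfold BaseP
  rcases h with (((((((h | h) | h) | h) | h) | h) | h) | h) | h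
  · exact Or.inl ⟨he _ _ h.1.1, he _ _ h.1.2, he _ _ h.2⟩
  · exact Or.inr (Or.inl ⟨he _ _ h.1.1, he _ _ h.1.2, he _ _ h.2⟩)
  · exact Or.inr (Or.inr (Or.inl ⟨he _ _ h.1.1.1, he _ _ h.1.1.2, he _ _ h.1.2, hw4 _ h.2⟩))
  · exact Or.inr (Or.inr (Or.inr (Or.inl ⟨he _ _ h.1.1.1, he _ _ h.1.1.2, he _ _ h.1.2, h5 _ h.2⟩)))
  · exact Or.inr (Or.inr (Or.inr (Or.inr (Or.inl ⟨he _ _ h.1.1, he _ _ h.1.2, hw4 _ h.2⟩))))
  · exact Or.inr (Or.inr (Or.inr (Or.inr (Or.inr (Or.inl ⟨hw4 _ h.1.1, he _ _ h.1.2, he _ _ h.2⟩)))))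
  · exact Or.inr (Or.inr (Or.inr (Or.inr (Or.inr (Or.inr (Or.inl ⟨hw4 _ h.1.1, he _ _ h.1.2, he _ _ h.2⟩))))))
  · exact Or.inr (Or.inr (Or.inr (Or.inr (Or.inr (Or.inr (Or.inr (Or.inl
      ⟨he _ _ h.1.1.1, he _ _ h.1.1.2, hw4 _ h.1.2, h5 _ h.2⟩)))))))
  · exact Or.inr (Or.inr (Or.inr (Or.inr (Or.inr (Or.inr (Or.inr (Or.inr
      ⟨he _ _ h.1.1.1, he _ _ h.1.1.2, h5 _ h.1.2, h5 _ h.2⟩)))))))

theorem fin6 (v : Fin 6) : (∃ j : Fin 4, v = e4 j) ∨ v = 4 ∨ v = 5 := by
  revert v; decide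

/-- **two stuck letters.** -/
theorem R2stuck {K : ℕ} (T : Tri p f s a b c d g h) (hC : Can p (NA.mu p s) r)
    (hcov : Cv2 p (NA.mu p s) r f K a b c d) (hs : a ∈ s.1 ↔ c ∈ s.1)
    (h1 : Stop p f s a b) (h2 : Stop p f s (p a) (NA.mu p s b)) (h3 : Stop p f s c d)
    (h4 : Stop p f s (p c) (NA.mu p s d)) : Goal p r f s (K + 20) 6 := by
  have hw := T.wf
  have hp := hw.inv
  have hg := T.gp
  obtain ⟨n1, n2, n3, n4⟩ := T.ac
  have hcda := (cd_iff hw).1 T.c1.1
  have hcdc := (cd_iff hw).1 T.c2.1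
  have hcdg := (cd_iff hw).1 T.c3.1
  obtain ⟨t, ht⟩ : ∃ t, t = tk p a c := ⟨_, rfl⟩
  obtain ⟨x, hx⟩ : ∃ x : Fin 4 → Fin 6, x = fun i => cls p f a c (NA.pd s (t i)) := ⟨_, rfl⟩
  have t0 : t 0 = a := by rw [ht]; rfl
  have t1 : t 1 = p a := by rw [ht]; rfl
  have t2 : t 2 = c := by rw [ht]; rfl
  have t3 : t 3 = p c := by rw [ht]; rfl
  -- sides
  have tcd : ∀ i, Cd p s (t i) := by
    intro i
    fin_cases i
    · show Cd p s (t 0); rw [t0]; exact T.c1.1
    · show Cd p s (t 1); rw [t1]; exact T.c1.1.pr hw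
    · show Cd p s (t 2); rw [t2]; exact T.c2.1
    · show Cd p s (t 3); rw [t3]; exact T.c2.1.pr hw
  have tsd : ∀ i, t i ∈ s.1 ↔ a ∈ s.1 := by
    intro i
    fin_cases i
    · show t 0 ∈ s.1 ↔ _; rw [t0]
    · show t 1 ∈ s.1 ↔ _; rw [t1]; exact hcda.2.symm
    · show t 2 ∈ s.1 ↔ _; rw [t2]; exact hs.symm
    · show t 3 ∈ s.1 ↔ _; rw [t3]; exact hcdc.2.symm.trans hs.symm
  have psd : ∀ i, NA.pd s (t i) ∈ s.1 ↔ a ∈ s.1 := fun i => (NA.pd_mem_A hw.nd).trans (tsd i)
  have tinj : ∀ i j, t i = t j → i = j := by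
    intro i j hij
    have hc := congrArg (cls p f a c) hij
    rw [ht, tk_cls hw n1 n2 n3 n4, tk_cls hw n1 n2 n3 n4] at hc
    simpa [e4, Fin.ext_iff] using hc
  have own : ∀ v, Cd p s v → (v ∈ s.1 ↔ a ∈ s.1) → ∃ j, v = t j := by
    intro v hv hvs
    have hga : ¬ (g ∈ s.1 ↔ a ∈ s.1) := fun h5 => T.nas ⟨hs, h5.symm⟩
    rcases (T.cd v).1 hv with h5 | h5 | h5 | h5 | h5 | h5
    · exact ⟨0, by rw [t0]; exact h5⟩
    · exact ⟨1, by rw [t1]; exact h5⟩
    · exact ⟨2, by rw [t2]; exact h5⟩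
    · exact ⟨3, by rw [t3]; exact h5⟩
    · rw [h5] at hvs
      exact absurd hvs hga
    · rw [h5] at hvs
      exact absurd (hcdg.2.trans hvs) hga
  -- the values of the code
  have he : ∀ i j, x i = e4 j → NA.pd s (t i) = t j := by
    intro i j hij
    rw [hx] at hij
    rw [cls_e4 hij, ht]
  have hw4 : ∀ i, x i = 4 → Wl p f (NA.pd s (t i)) := by
    intro i hij
    rw [hx] at hij
    exact cls_4 hij
  have h5 : ∀ i, x i = 5 → Ot p f s (NA.pd s (t i)) := by
    intro i hij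
    rw [hx] at hij
    obtain ⟨k1, k2, k3, k4, k5, k6⟩ := cls_5 hij
    refine ⟨fun hcd => ?_, k5, k6⟩
    obtain ⟨j, hj⟩ := own _ hcd (psd i)
    fin_cases j
    · exact k1 (hj.trans t0)
    · exact k2 (hj.trans t1)
    · exact k3 (hj.trans t2)
    · exact k4 (hj.trans t3)
  have htx : ∀ i j, NA.pd s (t i) = t j → x i = e4 j := by
    intro i j hij
    rw [hx]
    show cls p f a c (NA.pd s (t i)) = e4 j
    rw [hij, ht, tk_cls hw n1 n2 n3 n4]
  have pinj : ∀ v w, NA.pd s v = NA.pd s w → v = w := fun v w h => (NA.sc s).symm.injective h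
  have hfs : ¬ (f ∈ s.1 ↔ p f ∈ s.1) := by
    intro h6
    exact dj hw (h6.2 hg.fA) (List.mem_of_getLast? hg.last)
  have hwall : ∀ v w : Ω, Wl p f v → Wl p f w → (v ∈ s.1 ↔ w ∈ s.1) → v = w := by
    rintro v w (rfl | rfl) (rfl | rfl) hvw
    · rfl
    · exact absurd hvw hfs
    · exact absurd hvw.symm hfs
    · rfl
  have hne : ∀ i, NA.pd s (t i) ≠ t i := by
    intro i hi
    have h6 := NP.sc_ne hw (u := t i) (t := t i) (tcd i) Iff.rfl (tcd i).mem
    apply h6
    calc NA.sc s (t i) = NA.sc s (NA.pd s (t i)) := by rw [hi]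
      _ = t i := by rw [NA.sc_pd]
  -- the stop conditions
  have stp : ∀ i i', Stop p f s (t i) (NA.pd s (t i')) → (∃ j, x j = e4 i) ∨ x i' ≠ 5 := by
    intro i i' hst
    rcases hst with h6 | h6 | h6 | h6
    · left
      obtain ⟨j, hj⟩ := own _ h6 ((NA.sc_mem_A hw.nd).trans (tsd i))
      refine ⟨j, htx _ _ ?_⟩
      rw [← hj, NA.pd_sc]
    · right
      intro h7
      exact (h5 _ h7).1 h6
    · right
      intro h7
      exact (h5 _ h7).2.1 h6
    · right
      intro h7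
      exact (h5 _ h7).2.2 h6
  have e1 : NA.pd s (t 1) = b := by rw [t1]; exact T.c1.2
  have e0 : NA.pd s (t 0) = NA.mu p s b := by
    rw [t0]
    have := (T.c1.flip hw).2
    rwa [hp] at this
  have e3 : NA.pd s (t 3) = d := by rw [t3]; exact T.c2.2
  have e2 : NA.pd s (t 2) = NA.mu p s d := by
    rw [t2]
    have := (T.c2.flip hw).2
    rwa [hp] at this
  have s0 := stp 0 1 (by rw [t0, e1]; exact h1)
  have s1 := stp 1 0 (by rw [t1, e0]; exact h2)
  have s2 := stp 2 3 (by rw [t2, e3]; exact h3)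
  have s3 := stp 3 2 (by rw [t3, e2]; exact h4)
  -- the pattern is one of the list
  have hok : okB x = true := by
    unfold okB
    simp only [Bool.and_eq_true]
    refine ⟨⟨⟨?_, ?_⟩, ?_⟩, ?_⟩
    · rw [List.all_eq_true]
      intro i _
      rw [Bool.not_eq_true', decide_eq_false_iff_not]
      exact fun h6 => hne i (he i i h6)
    · rw [List.all_eq_true]
      rintro ⟨i, j⟩ hij
      have hij' : i ≠ j := by
        revert hij; revert i j; decide
      rw [Bool.not_eq_true', Bool.and_eq_false_iff]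
      by_cases h6 : x i = x j
      · right
        rw [Bool.not_eq_false', decide_eq_true_eq]
        by_contra h7
        apply hij'
        apply tinj
        apply pinj
        rcases fin6 (x i) with ⟨k, hk⟩ | hk | hk
        · rw [he i k hk, he j k (h6 ▸ hk)]
        · exact hwall _ _ (hw4 i hk) (hw4 j (h6 ▸ hk)) ((psd i).trans (psd j).symm)
        · exact absurd hk h7
      · left
        rw [decide_eq_false_iff_not]
        exact h6
    · rw [List.all_eq_true]
      intro S hS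
      rw [Bool.not_eq_true']
      by_contra h6
      rw [Bool.not_eq_false, List.all_eq_true] at h6
      obtain ⟨i0, hi0⟩ := subs_ne S hS
      refine no_closed hg (S := fun v => ∃ i ∈ S, v = t i) ?_ ?_ (t0 := t i0) ⟨i0, hi0, rfl⟩
      · rintro v ⟨i, -, rfl⟩
        exact tcd i
      · rintro v ⟨i, hi, rfl⟩
        have h7 := h6 i hi
        rw [List.any_eq_true] at h7
        obtain ⟨j, hj, h8⟩ := h7
        exact ⟨j, hj, he i j (of_decide_eq_true h8)⟩
    · rw [List.all_eq_true]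
      have conv : ∀ i i', ((∃ j, x j = e4 i) ∨ x i' ≠ 5) →
          ((([0, 1, 2, 3] : List (Fin 4)).any (fun j => decide (x j = e4 i))) || !decide (x i' = 5)) = true := by
        intro i i' h6
        rw [Bool.or_eq_true]
        rcases h6 with ⟨j, hj⟩ | h6
        · left
          rw [List.any_eq_true]
          exact ⟨j, by fin_cases j <;> simp, decide_eq_true hj⟩
        · right
          rw [Bool.not_eq_true', decide_eq_false_iff_not]
          exact h6
      intro q hq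
      simp only [List.mem_cons, List.not_mem_nil, or_false] at hq
      rcases hq with rfl | rfl | rfl | rfl
      · exact conv 0 1 s0
      · exact conv 1 0 s1
      · exact conv 2 3 s2
      · exact conv 3 2 s3
  have hxx : ![x 0, x 1, x 2, x 3] = x := by
    funext i
    fin_cases i <;> rfl
  have hpat := pat (x 0) (x 1) (x 2) (x 3) (by rw [hxx]; exact hok)
  rw [hxx, List.any_eq_true] at hpat
  obtain ⟨q, hq, hb⟩ := hpat
  have hB := baseP_of he hw4 h5 hb
  -- the cover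
  have hc8 : Cov8 p r s f (K + 1) a b c d := by
    obtain ⟨x', y', k1, k2, k3, k4⟩ := hcov
    refine ⟨x', y', ?_⟩
    rintro z (rfl | rfl | rfl | rfl | rfl | rfl | rfl | rfl)
    · exact Wr_succ k1
    · exact Wr_p k1
    · exact Wr_succ k2
    · exact Wr_q k2
    · exact Wr_succ k3
    · exact Wr_p k3
    · exact Wr_succ k4
    · exact Wr_q k4
  have hmm := NA.mu_mu hp s
  have fl1 : ∀ {a b c d : Ω}, Cov8 p r s f (K + 1) a b c d → Cov8 p r s f (K + 1) (p a) (NA.mu p s b) c d := by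
    rintro a b c d ⟨x', y', k⟩
    refine ⟨x', y', fun z hz => k z ?_⟩
    rw [hp, hmm] at hz
    rcases hz with h6 | h6 | h6 | h6 | h6 | h6 | h6 | h6 <;> simp [h6]
  have sw : ∀ {a b c d : Ω}, Cov8 p r s f (K + 1) a b c d → Cov8 p r s f (K + 1) c d a b := by
    rintro a b c d ⟨x', y', k⟩
    refine ⟨x', y', fun z hz => k z ?_⟩
    rcases hz with h6 | h6 | h6 | h6 | h6 | h6 | h6 | h6 <;> simp [h6]
  have fin : Goal p r f s (K + 1 + 10) 6 := by
    simp only [arrL, List.mem_cons, List.not_mem_nil, or_false] at hq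
    rcases hq with rfl | rfl | rfl | rfl | rfl | rfl | rfl | rfl <;> simp only [t0, t1, t2, t3] at hB
    · exact base_case T hC hc8 hB
    · exact base_case T.fl1 hC (fl1 hc8) (by rw [hp]; exact hB)
    · exact base_case T.fl2 hC (sw (fl1 (sw hc8))) (by rw [hp]; exact hB)
    · exact base_case T.fl1.fl2 hC (sw (fl1 (sw (fl1 hc8)))) (by rw [hp, hp]; exact hB)
    · exact base_case T.sw12 hC (sw hc8) hB
    · exact base_case T.fl1.sw12 hC (sw (fl1 hc8)) (by rw [hp]; exact hB)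
    · exact base_case T.fl2.sw12 hC (fl1 (sw hc8)) (by rw [hp]; exact hB)
    · exact base_case T.fl1.fl2.sw12 hC (fl1 (sw (fl1 hc8))) (by rw [hp, hp]; exact hB)
  exact fin.mono (by omega) (le_refl _)

end sem

/-- helper65's statement. -/
theorem R2stuck_20_6 : R2stuck_stmt 20 6 := fun _ _ _ _ _ _ _ _ _ _ _ _ _ T hC hcov hs h1 h2 h3 h4 =>
  R2stuck T hC hcov hs h1 h2 h3 h4

end Pool.Agent.helper36.T1
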